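import Mathlib

set_option autoImplicit false

/-!
# 1-limited automata and sweeping computations
-/

namespace Pool.Agent.D0H16.SW

/-- the symbols on the tape: the left end-marker, the right end-marker and the work symbols -/
inductive Sym (W : Type) : Type
  | lend : Sym W
  | rend : Sym W
  | sym : W → Sym W

/-- A 1-limited automaton over the input alphabet `A`.  `W` is the work alphabet without the two
end-markers; it contains the input alphabet (by the injection `emb`).  `δ q σ` is the set of the
possible moves (new state, symbol to be written, direction; `true` is a move to the right). -/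
structure LA (A : Type) where
  Q : Type
  W : Type
  finQ : Finite Q
  finW : Finite W
  emb : A → W
  emb_inj : Function.Injective emb
  start : Q
  final : Set Q
  δ : Q → Sym W → Set (Q × W × Bool)

variable {A : Type}

/-- A configuration: state, position of the head, content of the cells, the set of the cells
visited before, and the direction of the last move (`true` = right, also at the beginning). -/
@[ext] structure Cfg (M : LA A) where
  q : M.Q
  h : ℕ
  tape : ℕ → Sym M.W
  seen : Set ℕ
  dir : Bool

/-- the tape with the word `z` (of work symbols) between the end-markers: `⊢` in cell `0`, `z` in the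
cells `1, …, |z|`, and `⊣` in cell `|z| + 1` -/
def ftape {W : Type} (z : List W) : ℕ → Sym W
  | 0 => Sym.lend
  | i + 1 => (z[i]?).elim Sym.rend Sym.sym

/-- the initial configuration on the input `w`: head on cell `1`, no cell visited before -/
def init (M : LA A) (w : List A) : Cfg M :=
  ⟨M.start, 1, ftape (w.map M.emb), ∅, true⟩

open Classical in
/-- the content of the tape after writing `a` in the scanned cell: it changes only if this is the
first visit to the cell and the cell is not an end-marker -/
noncomputable def Cfg.write {M : LA A} (c : Cfg M) (a : M.W) : ℕ → Sym M.W :=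
  if c.h ∉ c.seen ∧ ∃ b, c.tape c.h = Sym.sym b then Function.update c.tape c.h (Sym.sym a) else c.tape

/-- one move of the machine; the head does not move to the right of `⊣` or to the left of `⊢` -/
inductive Step (M : LA A) : Cfg M → Cfg M → Prop
  | right (c : Cfg M) (q : M.Q) (a : M.W) : (q, a, true) ∈ M.δ c.q (c.tape c.h) →
      c.tape c.h ≠ Sym.rend → Step M c ⟨q, c.h + 1, c.write a, insert c.h c.seen, true⟩
  | left (c : Cfg M) (q : M.Q) (a : M.W) : (q, a, false) ∈ M.δ c.q (c.tape c.h) →
      c.tape c.h ≠ Sym.lend → Step M c ⟨q, c.h - 1, c.write a, insert c.h c.seen, false⟩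

/-- the configurations from which the machine may accept by moving to the right past `⊣` -/
def Exits (M : LA A) (c : Cfg M) : Prop :=
  c.tape c.h = Sym.rend ∧ ∃ q a, (q, a, true) ∈ M.δ c.q Sym.rend ∧ q ∈ M.final

/-- `M` accepts `w`: some computation moves past `⊣` in a final state -/
def LA.Accepts (M : LA A) (w : List A) : Prop :=
  ∃ c, Relation.ReflTransGen (Step M) (init M w) c ∧ Exits M c

/-- at most one move is possible in every situation -/
def LA.Deterministic (M : LA A) : Prop := ∀ q σ, (M.δ q σ).Subsingleton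

/-- in all computations the head first moves to the right and it reverses its direction only at the
end-markers -/
def LA.Sweeping (M : LA A) : Prop :=
  ∀ w c c', Relation.ReflTransGen (Step M) (init M w) c → (∃ b, c.tape c.h = Sym.sym b) →
    Step M c c' → c'.dir = c.dir

/-- `Reach M w k c`: some computation on the input `w` reaches the configuration `c` with exactly `k`
reversals of the head (changes of its direction, at the end-markers or elsewhere) -/
inductive Reach (M : LA A) (w : List A) : ℕ → Cfg M → Prop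
  | start : Reach M w 0 (init M w)
  | keep (k : ℕ) (c c' : Cfg M) : Reach M w k c → Step M c c' → c'.dir = c.dir → Reach M w k c'
  | turn (k : ℕ) (c c' : Cfg M) : Reach M w k c → Step M c c' → c'.dir ≠ c.dir → Reach M w (k + 1) c'

/-- `M` makes `o(|w|)` reversals on the accepted inputs `w` -/
def LA.FewReversals (M : LA A) : Prop :=
  ∀ K : ℕ, ∃ N : ℕ, ∀ w : List A, N ≤ w.length → M.Accepts w → ∀ k c, Reach M w k c → K * k ≤ w.length

/-! ### The tape -/

section tape

variable {W : Type}

lemma ftape_zero (z : List W) : ftape z 0 = Sym.lend := rfl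

lemma ftape_cons_pos (z : List W) (b : W) (z' : List W) :
    ftape (z ++ b :: z') (z.length + 1) = Sym.sym b := by
  simp [ftape]

lemma ftape_end (z : List W) : ftape z (z.length + 1) = Sym.rend := by
  simp [ftape]

lemma update_ftape (z : List W) (b b' : W) (z' : List W) :
    Function.update (ftape (z ++ b :: z')) (z.length + 1) (Sym.sym b') = ftape (z ++ b' :: z') := by
  funext i
  rcases Nat.eq_zero_or_pos i with h | h
  · subst h
    rw [Function.update_of_ne (by omega)]
    rfl
  · obtain ⟨i, rfl⟩ : ∃ k, i = k + 1 := ⟨i - 1, by omega⟩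
    by_cases hi : i = z.length
    · subst hi
      simp [ftape]
    · rw [Function.update_of_ne (by omega)]
      show (((z ++ b :: z')[i]?).elim Sym.rend Sym.sym : Sym W) = ((z ++ b' :: z')[i]?).elim Sym.rend Sym.sym
      congr 1
      rcases lt_or_gt_of_ne hi with h1 | h1
      · rw [List.getElem?_append_left h1, List.getElem?_append_left h1]
      · rw [List.getElem?_append_right h1.le, List.getElem?_append_right h1.le]
        obtain ⟨k, hk⟩ : ∃ k, i - z.length = k + 1 := ⟨i - z.length - 1, by omega⟩
        rw [hk]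
        rfl

end tape

/-! ### Relational semantics of the sweeps -/

/-- the first sweep: `T M q w z q'` if `M` can read `w` from left to right in state `q`, writing `z`,
and end in state `q'` -/
def T (M : LA A) : M.Q → List A → List M.W → M.Q → Prop
  | q, [], z, q' => z = [] ∧ q' = q
  | q, a :: w, z, q' => ∃ b z' q1, z = b :: z' ∧ (q1, b, true) ∈ M.δ q (Sym.sym (M.emb a)) ∧
      T M q1 w z' q'

/-- a later sweep to the right over `z` -/
def Rr (M : LA A) : M.Q → List M.W → M.Q → Prop
  | q, [], q' => q' = q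
  | q, b :: z, q' => ∃ q1 b', (q1, b', true) ∈ M.δ q (Sym.sym b) ∧ Rr M q1 z q'

/-- a sweep to the left over the reversal of `z` -/
def Lr (M : LA A) : M.Q → List M.W → M.Q → Prop
  | q, [], q' => q' = q
  | q, b :: z, q' => ∃ q1 b', (q1, b', false) ∈ M.δ q (Sym.sym b) ∧ Lr M q1 z q'

/-- acceptance from state `s` at the right end-marker, when the tape contains `z` and is frozen -/
inductive AccR (M : LA A) (z : List M.W) : M.Q → Prop
  | exit (s q : M.Q) (a : M.W) : (q, a, true) ∈ M.δ s Sym.rend → q ∈ M.final → AccR M z s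
  | trip (s q1 q2 q3 q4 : M.Q) (a a' : M.W) : (q1, a, false) ∈ M.δ s Sym.rend →
      Lr M q1 z.reverse q2 → (q3, a', true) ∈ M.δ q2 Sym.lend → Rr M q3 z q4 → AccR M z q4 →
      AccR M z s

lemma AccR.inv {M : LA A} {z : List M.W} {s : M.Q} (h : AccR M z s) :
    (∃ q a, (q, a, true) ∈ M.δ s Sym.rend ∧ q ∈ M.final) ∨
    ∃ q1 q2 q3 q4 a a', (q1, a, false) ∈ M.δ s Sym.rend ∧ Lr M q1 z.reverse q2 ∧
      (q3, a', true) ∈ M.δ q2 Sym.lend ∧ Rr M q3 z q4 ∧ AccR M z q4 := by
  induction h with
  | exit _ q a h1 h2 => exact Or.inl ⟨q, a, h1, h2⟩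
  | trip _ q1 q2 q3 q4 a a' h1 h2 h3 h4 h5 _ =>
    exact Or.inr ⟨q1, q2, q3, q4, a, a', h1, h2, h3, h4, h5⟩

lemma T_append (M : LA A) : ∀ (w : List A) (q : M.Q) (w' : List A) (z : List M.W) (q' : M.Q),
    T M q (w ++ w') z q' ↔ ∃ z1 z2 q1, z = z1 ++ z2 ∧ T M q w z1 q1 ∧ T M q1 w' z2 q'
  | [], q, w', z, q' => by
    constructor
    · intro h
      exact ⟨[], z, q, rfl, ⟨rfl, rfl⟩, h⟩
    · rintro ⟨z1, z2, q1, rfl, ⟨rfl, rfl⟩, h⟩
      exact h
  | a :: w, q, w', z, q' => by
    constructor
    · rintro ⟨b, z', q1, rfl, h1, h2⟩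
      obtain ⟨z1, z2, q2, rfl, h3, h4⟩ := (T_append M w q1 w' z' q').1 h2
      exact ⟨b :: z1, z2, q2, rfl, ⟨b, z1, q1, rfl, h1, h3⟩, h4⟩
    · rintro ⟨z1, z2, q2, rfl, ⟨b, z', q1, rfl, h1, h3⟩, h4⟩
      exact ⟨b, z' ++ z2, q1, rfl, h1, (T_append M w q1 w' _ q').2 ⟨z', z2, q2, rfl, h3, h4⟩⟩

lemma T_length (M : LA A) : ∀ (w : List A) (q : M.Q) (z : List M.W) (q' : M.Q),
    T M q w z q' → z.length = w.length
  | [], q, z, q', h => by rw [h.1]; rfl
  | a :: w, q, z, q', h => by
    obtain ⟨b, z', q1, rfl, h1, h2⟩ := h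
    rw [List.length_cons, List.length_cons, T_length M w q1 z' q' h2]

lemma Rr_append (M : LA A) : ∀ (z : List M.W) (q : M.Q) (z' : List M.W) (q' : M.Q),
    Rr M q (z ++ z') q' ↔ ∃ q1, Rr M q z q1 ∧ Rr M q1 z' q'
  | [], q, z', q' => by
    constructor
    · intro h
      exact ⟨q, rfl, h⟩
    · rintro ⟨q1, rfl, h⟩
      exact h
  | b :: z, q, z', q' => by
    constructor
    · rintro ⟨q1, b', h1, h2⟩
      obtain ⟨q2, h3, h4⟩ := (Rr_append M z q1 z' q').1 h2
      exact ⟨q2, ⟨q1, b', h1, h3⟩, h4⟩
    · rintro ⟨q2, ⟨q1, b', h1, h3⟩, h4⟩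
      exact ⟨q1, b', h1, (Rr_append M z q1 z' q').2 ⟨q2, h3, h4⟩⟩

/-! ### From the relational semantics to computations -/

/-- all cells between the end-markers have been visited and the tape contains `z` -/
structure Frozen {M : LA A} (z : List M.W) (c : Cfg M) : Prop where
  tape : c.tape = ftape z
  seen : ∀ i, 1 ≤ i → i ≤ z.length → i ∈ c.seen

lemma write_frozen {M : LA A} {z : List M.W} {c : Cfg M} (h : Frozen z c) (hh : c.h ≤ z.length + 1)
    (a : M.W) : c.write a = ftape z := by
  unfold Cfg.write
  rw [if_neg, h.tape]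
  rintro ⟨h1, b, h2⟩
  apply h1
  rw [h.tape] at h2
  rcases Nat.eq_zero_or_pos c.h with h3 | h3
  · rw [h3] at h2
    cases h2
  · apply h.seen _ h3
    by_contra h4
    have h5 : c.h = z.length + 1 := by omega
    rw [h5, ftape_end] at h2
    cases h2

lemma run_right (M : LA A) (z : List M.W) : ∀ (z2 z1 : List M.W) (c : Cfg M) (q' : M.Q),
    z = z1 ++ z2 → Frozen z c → c.h = z1.length + 1 → Rr M c.q z2 q' →
    ∃ c', Relation.ReflTransGen (Step M) c c' ∧ Frozen z c' ∧ c'.h = z.length + 1 ∧ c'.q = q'
  | [], z1, c, q', hz, hc, hh, h => by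
    refine ⟨c, Relation.ReflTransGen.refl, hc, ?_, ?_⟩
    · rw [hz, hh]
      simp
    · exact h.symm
  | b :: z2, z1, c, q', hz, hc, hh, h => by
    obtain ⟨q1, b', h1, h2⟩ := h
    have ht : c.tape c.h = Sym.sym b := by
      rw [hc.tape, hz, hh, ftape_cons_pos]
    have hlen : c.h ≤ z.length + 1 := by
      rw [hz, hh]
      simp
    have hs : Step M c ⟨q1, c.h + 1, c.write b', insert c.h c.seen, true⟩ := by
      apply Step.right
      · rw [ht]
        exact h1
      · rw [ht]
        intro h
        cases h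
    have hf : Frozen z (⟨q1, c.h + 1, c.write b', insert c.h c.seen, true⟩ : Cfg M) := by
      refine ⟨write_frozen hc hlen b', fun i hi1 hi2 => ?_⟩
      exact Set.mem_insert_of_mem _ (hc.seen i hi1 hi2)
    obtain ⟨c', h3, h4, h5, h6⟩ := run_right M z z2 (z1 ++ [b]) _ q' (by rw [hz]; simp) hf
      (by show c.h + 1 = _; rw [hh]; simp) h2
    exact ⟨c', Relation.ReflTransGen.head hs h3, h4, h5, h6⟩

lemma run_left (M : LA A) (z : List M.W) : ∀ (r z2 : List M.W) (c : Cfg M) (q' : M.Q),
    z = r.reverse ++ z2 → Frozen z c → c.h = r.length → Lr M c.q r q' →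
    ∃ c', Relation.ReflTransGen (Step M) c c' ∧ Frozen z c' ∧ c'.h = 0 ∧ c'.q = q'
  | [], z2, c, q', hz, hc, hh, h => by
    exact ⟨c, Relation.ReflTransGen.refl, hc, hh, h.symm⟩
  | b :: r, z2, c, q', hz, hc, hh, h => by
    obtain ⟨q1, b', h1, h2⟩ := h
    have ht : c.tape c.h = Sym.sym b := by
      rw [hc.tape, hz, hh]
      have : (b :: r).reverse ++ z2 = r.reverse ++ b :: z2 := by simp
      rw [this, List.length_cons, ← List.length_reverse, ftape_cons_pos]
    have hlen : c.h ≤ z.length + 1 := by
      rw [hz, hh]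
      simp
    have hs : Step M c ⟨q1, c.h - 1, c.write b', insert c.h c.seen, false⟩ := by
      apply Step.left
      · rw [ht]
        exact h1
      · rw [ht]
        intro h
        cases h
    have hf : Frozen z (⟨q1, c.h - 1, c.write b', insert c.h c.seen, false⟩ : Cfg M) := by
      refine ⟨write_frozen hc hlen b', fun i hi1 hi2 => ?_⟩
      exact Set.mem_insert_of_mem _ (hc.seen i hi1 hi2)
    obtain ⟨c', h3, h4, h5, h6⟩ := run_left M z r (b :: z2) _ q' (by rw [hz]; simp) hf
      (by show c.h - 1 = _; rw [hh]; simp) h2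
    exact ⟨c', Relation.ReflTransGen.head hs h3, h4, h5, h6⟩

lemma run_acc (M : LA A) (z : List M.W) (s : M.Q) (h : AccR M z s) : ∀ c : Cfg M, Frozen z c →
    c.h = z.length + 1 → c.q = s → ∃ c', Relation.ReflTransGen (Step M) c c' ∧ Exits M c' := by
  induction h with
  | exit s q a h1 h2 =>
    intro c hc hh hq
    refine ⟨c, Relation.ReflTransGen.refl, ?_, q, a, ?_, h2⟩
    · rw [hc.tape, hh, ftape_end]
    · rw [hq]
      exact h1
  | trip s q1 q2 q3 q4 a a' h1 h2 h3 h4 _ ih =>
    intro c hc hh hq
    have ht : c.tape c.h = Sym.rend := by rw [hc.tape, hh, ftape_end]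
    have hs : Step M c ⟨q1, c.h - 1, c.write a, insert c.h c.seen, false⟩ := by
      apply Step.left
      · rw [ht, hq]
        exact h1
      · rw [ht]
        intro h
        cases h
    have hf : Frozen z (⟨q1, c.h - 1, c.write a, insert c.h c.seen, false⟩ : Cfg M) := by
      refine ⟨write_frozen hc hh.le a, fun i hi1 hi2 => ?_⟩
      exact Set.mem_insert_of_mem _ (hc.seen i hi1 hi2)
    obtain ⟨c1, g1, g2, g3, g4⟩ := run_left M z z.reverse [] _ q2 (by simp) hf
      (by show c.h - 1 = _; rw [hh]; simp) h2
    have ht1 : c1.tape c1.h = Sym.lend := by rw [g2.tape, g3, ftape_zero]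
    have hs1 : Step M c1 ⟨q3, c1.h + 1, c1.write a', insert c1.h c1.seen, true⟩ := by
      apply Step.right
      · rw [ht1, g4]
        exact h3
      · rw [ht1]
        intro h
        cases h
    have hf1 : Frozen z (⟨q3, c1.h + 1, c1.write a', insert c1.h c1.seen, true⟩ : Cfg M) := by
      refine ⟨write_frozen g2 (by omega) a', fun i hi1 hi2 => ?_⟩
      exact Set.mem_insert_of_mem _ (g2.seen i hi1 hi2)
    obtain ⟨c2, k1, k2, k3, k4⟩ := run_right M z z [] _ q4 (by simp) hf1
      (by show c1.h + 1 = _; rw [g3]; simp) h4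
    obtain ⟨c3, m1, m2⟩ := ih c2 k2 k3 k4
    exact ⟨c3, Relation.ReflTransGen.head hs (g1.trans (Relation.ReflTransGen.head hs1 (k1.trans m1))), m2⟩

/-- the first sweep: `z` has been written, `w` has not yet been read -/
structure Fst {M : LA A} (z : List M.W) (w : List A) (c : Cfg M) : Prop where
  tape : c.tape = ftape (z ++ w.map M.emb)
  seen1 : ∀ i ∈ c.seen, i ≤ z.length
  seen2 : ∀ i, 1 ≤ i → i ≤ z.length → i ∈ c.seen
  pos : c.h = z.length + 1
  dir : c.dir = true

lemma fst_init (M : LA A) (w : List A) : Fst [] w (init M w) := by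
  refine ⟨rfl, fun i hi => hi.elim, fun i h1 h2 => ?_, rfl, rfl⟩
  simp at h2
  omega

lemma fst_step {M : LA A} {z : List M.W} {a : A} {w : List A} {c : Cfg M} (h : Fst z (a :: w) c)
    (q : M.Q) (b : M.W) :
    Fst (z ++ [b]) w (⟨q, c.h + 1, c.write b, insert c.h c.seen, true⟩ : Cfg M) := by
  have hns : c.h ∉ c.seen := by
    intro h1
    have := h.seen1 _ h1
    rw [h.pos] at this
    omega
  have ht : c.tape c.h = Sym.sym (M.emb a) := by
    rw [h.tape, h.pos, List.map_cons, ftape_cons_pos]
  refine ⟨?_, ?_, ?_, ?_, rfl⟩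
  · show c.write b = _
    unfold Cfg.write
    rw [if_pos ⟨hns, _, ht⟩, h.tape, h.pos, List.map_cons, update_ftape]
    simp
  · intro i hi
    rcases hi with hi | hi
    · rw [hi, h.pos]
      simp
    · have := h.seen1 i hi
      simp
      omega
  · intro i h1 h2
    simp at h2
    rcases Nat.lt_or_ge z.length i with h3 | h3
    · have : i = c.h := by rw [h.pos]; omega
      rw [this]
      exact Set.mem_insert _ _
    · exact Set.mem_insert_of_mem _ (h.seen2 i h1 h3)
  · show c.h + 1 = _
    rw [h.pos]
    simp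

lemma run_first (M : LA A) : ∀ (w : List A) (z z' : List M.W) (c : Cfg M) (q' : M.Q),
    Fst z w c → T M c.q w z' q' →
    ∃ c', Relation.ReflTransGen (Step M) c c' ∧ Fst (z ++ z') [] c' ∧ c'.q = q'
  | [], z, z', c, q', hc, h => by
    obtain ⟨rfl, rfl⟩ := h
    exact ⟨c, Relation.ReflTransGen.refl, by simpa using hc, rfl⟩
  | a :: w, z, z', c, q', hc, h => by
    obtain ⟨b, z'', q1, rfl, h1, h2⟩ := h
    have ht : c.tape c.h = Sym.sym (M.emb a) := by
      rw [hc.tape, hc.pos, List.map_cons, ftape_cons_pos]
    have hs : Step M c ⟨q1, c.h + 1, c.write b, insert c.h c.seen, true⟩ := by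
      apply Step.right
      · rw [ht]
        exact h1
      · rw [ht]
        intro h
        cases h
    obtain ⟨c', h3, h4, h5⟩ := run_first M w (z ++ [b]) z'' _ q' (fst_step hc q1 b) h2
    exact ⟨c', Relation.ReflTransGen.head hs h3, by simpa using h4, h5⟩

lemma fst_frozen {M : LA A} {z : List M.W} {c : Cfg M} (h : Fst z [] c) : Frozen z c :=
  ⟨by simpa using h.tape, h.seen2⟩

lemma accepts_of {M : LA A} {w : List A} {z : List M.W} {s : M.Q} (h1 : T M M.start w z s)
    (h2 : AccR M z s) : M.Accepts w := by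
  obtain ⟨c, g1, g2, g3⟩ := run_first M w [] z (init M w) s (fst_init M w) h1
  obtain ⟨c', g4, g5⟩ := run_acc M z s h2 c (fst_frozen g2) (by simpa using g2.pos) g3
  exact ⟨c', g1.trans g4, g5⟩

/-! ### From computations to the relational semantics -/

/-- the three kinds of configurations of sweeping machines -/
lemma back (M : LA A) (hM : M.Sweeping) (w₀ : List A) (c e : Cfg M)
    (hce : Relation.ReflTransGen (Step M) c e) (he : Exits M e) :
    Relation.ReflTransGen (Step M) (init M w₀) c →
    (∀ z w, Fst z w c → ∃ z' s, T M c.q w z' s ∧ AccR M (z ++ z') s) ∧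
    (∀ z z1 z2, z = z1 ++ z2 → Frozen z c → c.h = z1.length + 1 → c.dir = true →
      ∃ s, Rr M c.q z2 s ∧ AccR M z s) ∧
    (∀ z r z2, z = r.reverse ++ z2 → Frozen z c → c.h = r.length → c.dir = false →
      ∃ q2 q3 q4 a, Lr M c.q r q2 ∧ (q3, a, true) ∈ M.δ q2 Sym.lend ∧ Rr M q3 z q4 ∧ AccR M z q4) := by
  induction hce using Relation.ReflTransGen.head_induction_on with
  | refl =>
    intro hr
    obtain ⟨h1, q, a, h2, h3⟩ := he
    refine ⟨?_, ?_, ?_⟩
    · intro z w hc
      rcases w with _ | ⟨b, w⟩
      · exact ⟨[], e.q, ⟨rfl, rfl⟩, AccR.exit _ q a h2 h3⟩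
      · exfalso
        rw [hc.tape, hc.pos, List.map_cons, ftape_cons_pos] at h1
        cases h1
    · intro z z1 z2 hz hc hh hd
      rcases z2 with _ | ⟨b, z2⟩
      · exact ⟨e.q, rfl, AccR.exit _ q a h2 h3⟩
      · exfalso
        rw [hc.tape, hh, hz, ftape_cons_pos] at h1
        cases h1
    · intro z r z2 hz hc hh hd
      exfalso
      rcases r with _ | ⟨b, r⟩
      · rw [hc.tape, hh, List.length_nil, ftape_zero] at h1
        cases h1
      · have : (b :: r).reverse ++ z2 = r.reverse ++ b :: z2 := by simp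
        rw [hc.tape, hh, hz, this, List.length_cons, ← List.length_reverse, ftape_cons_pos] at h1
        cases h1
  | head hs hrest ih =>
    rename_i c c'
    intro hr
    have ih := ih (hr.tail hs)
    have hsw := hM w₀ c c' hr
    refine ⟨?_, ?_, ?_⟩
    · intro z w hc
      rcases w with _ | ⟨b, w⟩
      · have hf := fst_frozen hc
        have ht : c.tape c.h = Sym.rend := by
          rw [hf.tape, hc.pos, ftape_end]
        cases hs with
        | right q a h1 h2 => exact absurd ht h2
        | left q a h1 h2 =>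
          have hfr : Frozen z (⟨q, c.h - 1, c.write a, insert c.h c.seen, false⟩ : Cfg M) := by
            refine ⟨write_frozen hf hc.pos.le a, fun i hi1 hi2 => ?_⟩
            exact Set.mem_insert_of_mem _ (hf.seen i hi1 hi2)
          obtain ⟨q2, q3, q4, a', g1, g2, g3, g4⟩ := ih.2.2 z z.reverse [] (by simp) hfr
            (by show c.h - 1 = _; rw [hc.pos]; simp) rfl
          rw [ht] at h1
          refine ⟨[], c.q, ⟨rfl, rfl⟩, ?_⟩
          rw [List.append_nil]
          exact AccR.trip _ q q2 q3 q4 a a' h1 g1 g2 g3 g4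
      · have ht : c.tape c.h = Sym.sym (M.emb b) := by
          rw [hc.tape, hc.pos, List.map_cons, ftape_cons_pos]
        have hd := hsw ⟨_, ht⟩ hs
        cases hs with
        | left q a h1 h2 =>
          exfalso
          rw [hc.dir] at hd
          exact absurd hd (by simp)
        | right q a h1 h2 =>
          rw [ht] at h1
          obtain ⟨z', s, g1, g2⟩ := ih.1 (z ++ [a]) w (fst_step hc q a)
          exact ⟨a :: z', s, ⟨a, z', q, rfl, h1, g1⟩, by simpa using g2⟩
    · intro z z1 z2 hz hc hh hdir
      rcases z2 with _ | ⟨b, z2⟩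
      · have hz' : c.h = z.length + 1 := by rw [hz, hh]; simp
        have ht : c.tape c.h = Sym.rend := by
          rw [hc.tape, hz', ftape_end]
        cases hs with
        | right q a h1 h2 => exact absurd ht h2
        | left q a h1 h2 =>
          have hfr : Frozen z (⟨q, c.h - 1, c.write a, insert c.h c.seen, false⟩ : Cfg M) := by
            refine ⟨write_frozen hc hz'.le a, fun i hi1 hi2 => ?_⟩
            exact Set.mem_insert_of_mem _ (hc.seen i hi1 hi2)
          obtain ⟨q2, q3, q4, a', g1, g2, g3, g4⟩ := ih.2.2 z z.reverse [] (by simp) hfr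
            (by show c.h - 1 = _; rw [hz']; simp) rfl
          rw [ht] at h1
          exact ⟨c.q, rfl, AccR.trip _ q q2 q3 q4 a a' h1 g1 g2 g3 g4⟩
      · have ht : c.tape c.h = Sym.sym b := by
          rw [hc.tape, hz, hh, ftape_cons_pos]
        have hlen : c.h ≤ z.length + 1 := by
          rw [hz, hh]
          simp
        have hd := hsw ⟨_, ht⟩ hs
        cases hs with
        | left q a h1 h2 =>
          exfalso
          rw [hdir] at hd
          exact absurd hd (by simp)
        | right q a h1 h2 =>
          rw [ht] at h1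
          have hfr : Frozen z (⟨q, c.h + 1, c.write a, insert c.h c.seen, true⟩ : Cfg M) := by
            refine ⟨write_frozen hc hlen a, fun i hi1 hi2 => ?_⟩
            exact Set.mem_insert_of_mem _ (hc.seen i hi1 hi2)
          obtain ⟨s, g1, g2⟩ := ih.2.1 z (z1 ++ [b]) z2 (by rw [hz]; simp) hfr
            (by show c.h + 1 = _; rw [hh]; simp) rfl
          exact ⟨s, ⟨q, a, h1, g1⟩, g2⟩
    · intro z r z2 hz hc hh hdir
      rcases r with _ | ⟨b, r⟩
      · have hh0 : c.h = 0 := by simpa using hh
        have ht : c.tape c.h = Sym.lend := by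
          rw [hc.tape, hh0, ftape_zero]
        cases hs with
        | left q a h1 h2 => exact absurd ht h2
        | right q a h1 h2 =>
          have hfr : Frozen z (⟨q, c.h + 1, c.write a, insert c.h c.seen, true⟩ : Cfg M) := by
            refine ⟨write_frozen hc (by omega) a, fun i hi1 hi2 => ?_⟩
            exact Set.mem_insert_of_mem _ (hc.seen i hi1 hi2)
          rw [ht] at h1
          obtain ⟨s, g1, g2⟩ := ih.2.1 z [] z (by simp) hfr
            (by show c.h + 1 = _; rw [hh0]; simp) rfl
          exact ⟨c.q, q, s, a, rfl, h1, g1, g2⟩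
      · have ht : c.tape c.h = Sym.sym b := by
          have : (b :: r).reverse ++ z2 = r.reverse ++ b :: z2 := by simp
          rw [hc.tape, hh, hz, this, List.length_cons, ← List.length_reverse, ftape_cons_pos]
        have hlen : c.h ≤ z.length + 1 := by
          rw [hz, hh]
          simp
        have hd := hsw ⟨_, ht⟩ hs
        cases hs with
        | right q a h1 h2 =>
          exfalso
          rw [hdir] at hd
          exact absurd hd (by simp)
        | left q a h1 h2 =>
          rw [ht] at h1
          have hfr : Frozen z (⟨q, c.h - 1, c.write a, insert c.h c.seen, false⟩ : Cfg M) := by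
            refine ⟨write_frozen hc hlen a, fun i hi1 hi2 => ?_⟩
            exact Set.mem_insert_of_mem _ (hc.seen i hi1 hi2)
          obtain ⟨q2, q3, q4, a', g1, g2, g3, g4⟩ := ih.2.2 z r (b :: z2) (by rw [hz]; simp) hfr
            (by show c.h - 1 = _; rw [hh]; simp) rfl
          exact ⟨q2, q3, q4, a', ⟨q, a, h1, g1⟩, g2, g3, g4⟩

/-- **Acceptance of sweeping machines by sweeps.** -/
theorem accepts_iff {M : LA A} (hM : M.Sweeping) (w : List A) :
    M.Accepts w ↔ ∃ z s, T M M.start w z s ∧ AccR M z s := by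
  constructor
  · rintro ⟨e, h1, h2⟩
    obtain ⟨z, s, g1, g2⟩ := (back M hM w (init M w) e h1 h2 Relation.ReflTransGen.refl).1 [] w
      (fst_init M w)
    exact ⟨z, s, g1, by simpa using g2⟩
  · rintro ⟨z, s, h1, h2⟩
    exact accepts_of h1 h2

end Pool.Agent.D0H16.SW
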