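import Mathlib

set_option autoImplicit false

/-!
# Generic words for sweeps over tapes annotated by the first sweep

`a` is the automaton of the first sweep (states `P`); a sweep to the right (states `S`) reads the letters
together with the states of the first sweep by `l`, a sweep to the left by `r`.
-/

namespace Pool.Agent.D0H16.SW

section words

variable {A P S : Type} (a : P → A → P) (l r : P → A → S → S)

/-- the state of the first sweep after a word -/
def aw : P → List A → P
  | p, [] => p
  | p, x :: w => aw (a p x) w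

/-- the effect of a sweep to the right over a word, entered by the first sweep in state `p` -/
def lw : P → List A → S → S
  | _, [], s => s
  | p, x :: w, s => lw (a p x) w (l p x s)

/-- the effect of a sweep to the left over a word, entered by the first sweep in state `p` -/
def rw' : P → List A → S → S
  | _, [], s => s
  | p, x :: w, s => r p x (rw' (a p x) w s)

lemma aw_append (p : P) (u v : List A) : aw a p (u ++ v) = aw a (aw a p u) v := by
  induction u generalizing p with
  | nil => rfl
  | cons x u ih => exact ih _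

lemma lw_append (p : P) (u v : List A) (s : S) :
    lw a l p (u ++ v) s = lw a l (aw a p u) v (lw a l p u s) := by
  induction u generalizing p s with
  | nil => rfl
  | cons x u ih => exact ih _ _

lemma rw_append (p : P) (u v : List A) (s : S) :
    rw' a r p (u ++ v) s = rw' a r p u (rw' a r (aw a p u) v s) := by
  induction u generalizing p with
  | nil => rfl
  | cons x u ih => exact congrArg (r p x) (ih _)

end words

/-- an injective self-map of a finite set: a point and any given multiple of the period -/
lemma per_set {α : Type} [Finite α] (f : α → α) (U : Set α) (hm : Set.MapsTo f U U)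
    (hi : Set.InjOn f U) : ∃ K, 0 < K ∧ ∀ m, ∀ x ∈ U, f^[K * m] x = x := by
  classical
  let g : U → U := hm.restrict f U U
  have hg : Function.Injective g := (Set.injOn_iff_injective.1 hi |> fun h => by
    intro x y hxy
    apply Subtype.ext
    have := congrArg Subtype.val hxy
    exact hi x.2 y.2 this)
  have hfin : Finite U := inferInstance
  let e : Equiv.Perm U := Equiv.ofBijective g (Finite.injective_iff_bijective.1 hg)
  refine ⟨orderOf e, orderOf_pos e, fun m x hx => ?_⟩
  have h1 : ∀ k : ℕ, ∀ y : U, ((e ^ k) y : α) = f^[k] (y : α) := by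
    intro k
    induction k with
    | zero => intro y; rfl
    | succ k ih =>
      intro y
      rw [pow_succ, Equiv.Perm.mul_apply, ih, Function.iterate_succ_apply]
      rfl
  have h2 := h1 (orderOf e * m) ⟨x, hx⟩
  rw [pow_mul, pow_orderOf_eq_one, one_pow] at h2
  exact h2.symm

section main

variable {A P S : Type} [Fintype P] [Fintype S] [Nonempty S] (a : P → A → P) (l r : P → A → S → S)

variable {X : Type} (wd : X → List A)

/-- the word of a list of blocks -/
def W (t : List X) : List A := (t.map wd).flatten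

lemma W_append (t u : List X) : W wd (t ++ u) = W wd t ++ W wd u := by
  simp [W]

lemma W_single (x : X) : W wd [x] = wd x := by simp [W]

/-- a minimum of a function to the natural numbers on a nonempty set -/
lemma exists_min {α : Type} (p : α → Prop) (f : α → ℕ) (h : ∃ x, p x) : ∃ x, p x ∧ ∀ y, p y → f x ≤ f y := by
  classical
  have h1 : ∃ n, ∃ x, p x ∧ f x = n := by
    obtain ⟨x, hx⟩ := h
    exact ⟨f x, x, hx, rfl⟩
  obtain ⟨x, hx, hn⟩ := Nat.find_spec h1
  refine ⟨x, hx, fun y hy => ?_⟩
  rw [hn]
  exact Nat.find_min' h1 ⟨y, hy, rfl⟩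

/-- **The lower bound.**  `acc` is stable under the replacement of a list of good blocks, in some context
of good blocks, by a list with the same effect on all sweeps, and it holds for a product of blocks if and
only if all blocks are good. -/
theorem lower (acc : List A → Prop) (good : X → Prop)
    (hacc : ∀ t : List X, (∀ b ∈ t, good b) → ∃ c1 c2 : List X, (∀ b ∈ c1, good b) ∧
      (∀ b ∈ c2, good b) ∧ ∀ t' : List X, (∀ p, aw a p (W wd t) = aw a p (W wd t')) →
      (∀ p s, lw a l p (W wd t) s = lw a l p (W wd t') s) →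
      (∀ p s, rw' a r p (W wd t) s = rw' a r p (W wd t') s) →
      acc (W wd (c1 ++ t ++ c2)) → acc (W wd (c1 ++ t' ++ c2)))
    (hgood : ∀ t : List X, acc (W wd t) ↔ ∀ x ∈ t, good x)
    {J : Type} [Fintype J] (e f : J → List A) (x : J → J → X) (hx : ∀ i j, wd (x i j) = e i ++ f j)
    (hbad : ∀ j, ¬ good (x j j)) (hmix : ∀ i j, i ≠ j → good (x i j) ∨ good (x j i)) :
    Fintype.card J ≤ Fintype.card P ^ 4 + Fintype.card P ^ 4 * Fintype.card S ^ 4 +
      Fintype.card P ^ 3 * Fintype.card S ^ 4 := by
  classical
  -- the image of the first sweep over a good list is made as small as possible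
  obtain ⟨l0, hl0, hmin0⟩ := exists_min (fun t : List X => ∀ y ∈ t, good y)
    (fun t => (Finset.univ.image (fun p => aw a p (W wd t))).card) ⟨[], by simp⟩
  set Qs : Finset P := Finset.univ.image (fun p => aw a p (W wd l0)) with hQs
  have hend : ∀ (p : P) (t : List X), aw a p (W wd (t ++ l0)) ∈ Qs := by
    intro p t
    rw [W_append, aw_append, hQs]
    exact Finset.mem_image_of_mem _ (Finset.mem_univ _)
  have hperm : ∀ t : List X, (∀ y ∈ t, good y) →
      Set.InjOn (fun p => aw a p (W wd (t ++ l0))) (Qs : Set P) := by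
    intro t ht
    have h1 : (Qs.image (fun p => aw a p (W wd (t ++ l0)))) =
        Finset.univ.image (fun p => aw a p (W wd (l0 ++ (t ++ l0)))) := by
      rw [hQs, Finset.image_image]
      congr 1
      funext p
      simp only [Function.comp]
      rw [W_append wd l0 (t ++ l0), aw_append]
    have h2 := hmin0 (l0 ++ (t ++ l0)) (by
      intro y hy
      simp only [List.mem_append] at hy
      rcases hy with hy | hy | hy
      · exact hl0 y hy
      · exact ht y hy
      · exact hl0 y hy)
    rw [← h1] at h2
    have h3 : (Qs.image (fun p => aw a p (W wd (t ++ l0)))).card = Qs.card :=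
      le_antisymm Finset.card_image_le h2
    exact Finset.card_image_iff.1 h3
  -- the ranks
  let cm : List X → P × S → P × S := fun t z => (aw a z.1 (W wd t), lw a l z.1 (W wd t) z.2)
  have hcm : ∀ t u z, cm (t ++ u) z = cm u (cm t z) := by
    intro t u z
    show (_, _) = (_, _)
    rw [W_append, aw_append, lw_append]
  let VC : List X → Finset (P × S) := fun t => (Qs ×ˢ Finset.univ).image (cm t)
  let VB : List X → P → Finset S := fun t q => Finset.univ.image (rw' a r q (W wd t))
  obtain ⟨y0, hy0, hminy⟩ := exists_min (fun t : List X => ∀ y ∈ t, good y)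
    (fun t => (VC (t ++ l0)).card + ∑ q ∈ Qs, (VB (t ++ l0) q).card) ⟨[], by simp⟩
  set y : List X := y0 ++ l0 with hy
  have hyg : ∀ b ∈ y, good b := by
    intro b hb
    rw [hy, List.mem_append] at hb
    rcases hb with hb | hb
    · exact hy0 b hb
    · exact hl0 b hb
  have hyQ : ∀ p, aw a p (W wd y) ∈ Qs := fun p => hend p y0
  -- the step for one block
  have hVCsub : ∀ z : P × S, cm y z ∈ VC y ↔ ∃ z' ∈ (Qs ×ˢ (Finset.univ : Finset S)), cm y z' = cm y z := by
    intro z
    exact Finset.mem_image
  have crit : ∀ b : X, good b →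
      Set.InjOn (fun p => aw a p (W wd ([b] ++ l0))) (Qs : Set P) ∧
      Set.InjOn (cm ([b] ++ l0 ++ y)) (VC y : Set (P × S)) ∧
      (∀ p ∈ Qs, Set.InjOn (rw' a r p (W wd (y ++ [b] ++ l0)))
        (VB y (aw a p (W wd (y ++ [b] ++ l0))) : Set S)) := by
    intro b hb
    refine ⟨hperm [b] (by simpa using hb), ?_⟩
    -- the list y'' = y b l0 y
    have hg2 : ∀ c ∈ y ++ [b] ++ l0 ++ y0, good c := by
      intro c hc
      simp only [List.mem_append, List.mem_singleton] at hc
      rcases hc with ((hc | hc) | hc) | hc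
      · exact hyg c hc
      · rw [hc]; exact hb
      · exact hl0 c hc
      · exact hy0 c hc
    have hm := hminy (y ++ [b] ++ l0 ++ y0) hg2
    have e1 : y ++ [b] ++ l0 ++ y0 ++ l0 = y ++ ([b] ++ l0 ++ y) := by
      rw [hy]; simp
    have e2 : y ++ [b] ++ l0 ++ y0 ++ l0 = (y ++ [b] ++ l0) ++ y := by
      rw [hy]; simp
    -- ranks of y''
    have hVC1 : VC (y ++ [b] ++ l0 ++ y0 ++ l0) = (VC y).image (cm ([b] ++ l0 ++ y)) := by
      rw [e1]
      show (Qs ×ˢ Finset.univ).image (cm _) = ((Qs ×ˢ Finset.univ).image (cm y)).image _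
      rw [Finset.image_image]
      congr 1
      funext z
      exact hcm _ _ _
    have hF : ∀ p ∈ Qs, aw a p (W wd (y ++ [b] ++ l0)) ∈ Qs := fun p _ => hend p _
    have hFinj : Set.InjOn (fun p => aw a p (W wd (y ++ [b] ++ l0))) (Qs : Set P) :=
      hperm (y ++ [b]) (by
        intro c hc
        simp only [List.mem_append, List.mem_singleton] at hc
        rcases hc with hc | hc
        · exact hyg c hc
        · rw [hc]; exact hb)
    have hVB1 : ∀ p, VB (y ++ [b] ++ l0 ++ y0 ++ l0) p =
        (VB y (aw a p (W wd (y ++ [b] ++ l0)))).image (rw' a r p (W wd (y ++ [b] ++ l0))) := by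
      intro p
      rw [e2]
      show Finset.univ.image (rw' a r p _) = (Finset.univ.image (rw' a r _ _)).image _
      rw [Finset.image_image]
      congr 1
      funext s
      simp only [Function.comp]
      rw [W_append wd (y ++ [b] ++ l0) y, rw_append]
    have hsum : ∑ p ∈ Qs, (VB y (aw a p (W wd (y ++ [b] ++ l0)))).card = ∑ q ∈ Qs, (VB y q).card := by
      have hbij : Qs.image (fun p => aw a p (W wd (y ++ [b] ++ l0))) = Qs :=
        Finset.eq_of_subset_of_card_le (Finset.image_subset_iff.2 hF)
          (by rw [Finset.card_image_of_injOn hFinj])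
      conv_rhs => rw [← hbij]
      rw [Finset.sum_image hFinj]
    have hle1 : (VC (y ++ [b] ++ l0 ++ y0 ++ l0)).card ≤ (VC y).card := by
      rw [hVC1]; exact Finset.card_image_le
    have hle2 : ∀ p ∈ Qs, (VB (y ++ [b] ++ l0 ++ y0 ++ l0) p).card ≤
        (VB y (aw a p (W wd (y ++ [b] ++ l0)))).card := by
      intro p _
      rw [hVB1]; exact Finset.card_image_le
    have hle3 := Finset.sum_le_sum hle2
    rw [hsum] at hle3
    have hC : (VC (y ++ [b] ++ l0 ++ y0 ++ l0)).card = (VC y).card := by omega
    have hB : ∑ p ∈ Qs, (VB (y ++ [b] ++ l0 ++ y0 ++ l0) p).card =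
        ∑ p ∈ Qs, (VB y (aw a p (W wd (y ++ [b] ++ l0)))).card := by
      rw [hsum]; omega
    have hB' := (Finset.sum_eq_sum_iff_of_le hle2).1 hB
    refine ⟨?_, ?_⟩
    · rw [hVC1] at hC
      exact Finset.card_image_iff.1 hC
    · intro p hp
      have := hB' p hp
      rw [hVB1] at this
      exact Finset.card_image_iff.1 this
  -- the converse
  have conv : ∀ b : X,
      Set.InjOn (fun p => aw a p (W wd ([b] ++ l0))) (Qs : Set P) →
      Set.InjOn (cm ([b] ++ l0 ++ y)) (VC y : Set (P × S)) →
      (∀ p ∈ Qs, Set.InjOn (rw' a r p (W wd (y ++ [b] ++ l0)))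
        (VB y (aw a p (W wd (y ++ [b] ++ l0))) : Set S)) → good b := by
    intro b hb1 hb2 hb3
    -- powers of the list t = y b l0
    set t : List X := y ++ [b] ++ l0 with ht
    let pw : ℕ → List X := fun j => (List.replicate j t).flatten
    have hpw0 : pw 0 = [] := rfl
    have hpw1 : ∀ j, pw (j + 1) = t ++ pw j := by
      intro j
      show (List.replicate (j + 1) t).flatten = _
      rw [List.replicate_succ, List.flatten_cons]
    have hpw2 : ∀ j, pw (j + 1) = pw j ++ t := by
      intro j
      show (List.replicate (j + 1) t).flatten = _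
      rw [List.replicate_succ', List.flatten_append]
      simp [pw]
    -- the right sweeps
    obtain ⟨K1, hK1, hper1⟩ := per_set (cm ([b] ++ l0 ++ y)) (VC y : Set (P × S)) (by
      intro z hz
      rw [hcm]
      rw [Finset.mem_coe]
      have hz' : z.1 ∈ Qs ∨ True := Or.inr trivial
      apply Finset.mem_image.2
      refine ⟨cm ([b] ++ l0) z, ?_, rfl⟩
      rw [Finset.mem_product]
      exact ⟨hend z.1 [b], Finset.mem_univ _⟩) hb2
    have hcpow : ∀ j z, cm (pw j ++ y) z = (cm ([b] ++ l0 ++ y))^[j] (cm y z) := by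
      intro j
      induction j with
      | zero => intro z; rfl
      | succ j ih =>
        intro z
        have e3 : pw (j + 1) ++ y = (pw j ++ y) ++ ([b] ++ l0 ++ y) := by
          rw [hpw2, ht]; simp
        rw [e3, hcm, ih, Function.iterate_succ_apply']
    -- the left sweeps
    have hFinj : Set.InjOn (fun p => aw a p (W wd t)) (Qs : Set P) := by
      have hyinj := hperm y0 hy0
      intro p hp q hq hpq
      simp only at hpq
      have e4 : t = y ++ ([b] ++ l0) := by rw [ht]; simp
      rw [e4, W_append, aw_append, aw_append] at hpq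
      exact hyinj hp hq (hb1 (hyQ p) (hyQ q) hpq)
    have hFmaps : ∀ p ∈ Qs, aw a p (W wd t) ∈ Qs := fun p _ => hend p _
    have hFsurj : ∀ q ∈ Qs, ∃ p ∈ Qs, aw a p (W wd t) = q := by
      intro q hq
      have hbij : Qs.image (fun p => aw a p (W wd t)) = Qs :=
        Finset.eq_of_subset_of_card_le (Finset.image_subset_iff.2 hFmaps)
          (by rw [Finset.card_image_of_injOn hFinj])
      rw [← hbij] at hq
      simpa using hq
    let Θ : (P → S → S) → (P → S → S) := fun E p => if p ∈ Qs then
      (fun s => rw' a r p (W wd t) (E (aw a p (W wd t)) s)) else E p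
    let U : Set (P → S → S) := {E | ∀ p ∈ Qs, ∀ s, E p s ∈ VB y p}
    obtain ⟨K2, hK2, hper2⟩ := per_set Θ U (by
      intro E hE p hp s
      show (if p ∈ Qs then _ else _ : S → S) s ∈ VB y p
      rw [if_pos hp]
      have e4 : t = y ++ ([b] ++ l0) := by rw [ht]; simp
      rw [e4, W_append wd y, rw_append]
      exact Finset.mem_image_of_mem _ (Finset.mem_univ _)) (by
      intro E hE E' hE' hEE
      funext q
      by_cases hq : q ∈ Qs
      · obtain ⟨p, hp, rfl⟩ := hFsurj q hq
        have h1 := congrFun hEE p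
        simp only [Θ, if_pos hp] at h1
        funext s
        have h2 := congrFun h1 s
        exact hb3 p hp (by exact_mod_cast hE _ (hFmaps p hp) s) (by exact_mod_cast hE' _ (hFmaps p hp) s) h2
      · have h1 := congrFun hEE q
        simp only [Θ, if_neg hq] at h1
        exact h1)
    have hrpow : ∀ j, ∀ p ∈ Qs, ∀ s, rw' a r p (W wd (pw j ++ y)) s =
        (Θ^[j] (fun q => rw' a r q (W wd y))) p s := by
      intro j
      induction j with
      | zero => intro p _ s; rfl
      | succ j ih =>
        intro p hp s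
        rw [Function.iterate_succ_apply']
        show _ = (if p ∈ Qs then _ else _ : S → S) s
        rw [if_pos hp, hpw1, List.append_assoc, W_append wd t, rw_append, ih _ (hFmaps p hp)]
    -- comparison of the two words
    have hK : 0 < K1 * K2 := Nat.mul_pos hK1 hK2
    have hp1 : ∀ p, aw a p (W wd l0) ∈ Qs := fun p => Finset.mem_image_of_mem _ (Finset.mem_univ _)
    have hl0y : ∀ c ∈ l0 ++ y, good c := by
      intro c hc
      rw [List.mem_append] at hc
      rcases hc with hc | hc
      · exact hl0 c hc
      · exact hyg c hc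
    obtain ⟨c1, c2, hc1, hc2, hrep⟩ := hacc (l0 ++ y) hl0y
    have key : acc (W wd (c1 ++ (l0 ++ y) ++ c2)) →
        acc (W wd (c1 ++ (l0 ++ (pw (K1 * K2) ++ y)) ++ c2)) := by
      have hc : ∀ p s, cm (pw (K1 * K2) ++ y) (aw a p (W wd l0), s) = cm y (aw a p (W wd l0), s) := by
        intro p s
        rw [hcpow]
        apply hper1
        rw [Finset.mem_coe]
        exact Finset.mem_image_of_mem (cm y) (Finset.mem_product.2 ⟨hp1 p, Finset.mem_univ _⟩)
      apply hrep
      · intro p
        rw [W_append wd l0 y, W_append wd l0 (pw (K1 * K2) ++ y), aw_append, aw_append]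
        exact (congrArg Prod.fst (hc p (Classical.arbitrary S))).symm
      · intro p s
        rw [W_append wd l0 y, W_append wd l0 (pw (K1 * K2) ++ y), lw_append, lw_append]
        exact (congrArg Prod.snd (hc p (lw a l p (W wd l0) s))).symm
      · intro p s
        rw [W_append wd l0 y, W_append wd l0 (pw (K1 * K2) ++ y), rw_append, rw_append,
          hrpow _ _ (hp1 p), Nat.mul_comm, hper2]
        exact fun p hp s => Finset.mem_image_of_mem _ (Finset.mem_univ _)
    have h1 : acc (W wd (c1 ++ (l0 ++ y) ++ c2)) := by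
      rw [hgood]
      intro c hc
      rw [List.mem_append, List.mem_append] at hc
      rcases hc with (hc | hc) | hc
      · exact hc1 c hc
      · exact hl0y c hc
      · exact hc2 c hc
    have h2 := (hgood _).1 (key h1)
    apply h2
    obtain ⟨K', hK'⟩ : ∃ K', K1 * K2 = K' + 1 := ⟨K1 * K2 - 1, by omega⟩
    rw [hK', hpw1, ht]
    simp
  -- witnesses
  have hW : ∀ i j t, W wd ([x i j] ++ t) = e i ++ (f j ++ W wd t) := by
    intro i j t
    rw [W_append, W_single, hx, List.append_assoc]
  let Wit : J → (P × P × P × P) ⊕ ((P × P × P × P) × (S × S × S × S)) ⊕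
      ((P × P × P) × (S × S × S × S)) → Prop := fun j d => match d with
    | Sum.inl (q, q', u, u') => q ∈ Qs ∧ q' ∈ Qs ∧ q ≠ q' ∧ aw a q (e j) = u ∧ aw a q' (e j) = u' ∧
        aw a u (f j ++ W wd l0) = aw a u' (f j ++ W wd l0)
    | Sum.inr (Sum.inl ((q, q', u, u'), (s, s', v, v'))) => (q, s) ∈ VC y ∧ (q', s') ∈ VC y ∧
        (q, s) ≠ (q', s') ∧ aw a q (e j) = u ∧ aw a q' (e j) = u' ∧ lw a l q (e j) s = v ∧
        lw a l q' (e j) s' = v' ∧
        aw a u (f j ++ W wd (l0 ++ y)) = aw a u' (f j ++ W wd (l0 ++ y)) ∧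
        lw a l u (f j ++ W wd (l0 ++ y)) v = lw a l u' (f j ++ W wd (l0 ++ y)) v'
    | Sum.inr (Sum.inr ((p, q, m), (s, s', v, v'))) => p ∈ Qs ∧ aw a p (W wd y ++ e j) = m ∧
        aw a m (f j ++ W wd l0) = q ∧ s ∈ VB y q ∧ s' ∈ VB y q ∧ s ≠ s' ∧
        rw' a r m (f j ++ W wd l0) s = v ∧ rw' a r m (f j ++ W wd l0) s' = v' ∧
        rw' a r p (W wd y ++ e j) v = rw' a r p (W wd y ++ e j) v'
  have hWit : ∀ j, ∃ d, Wit j d := by
    intro j
    by_contra hne
    push Not at hne
    apply hbad j
    apply conv (x j j)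
    · intro q hq q' hq' hqq
      by_contra hneq
      apply hne (Sum.inl (q, q', aw a q (e j), aw a q' (e j)))
      refine ⟨hq, hq', hneq, rfl, rfl, ?_⟩
      simp only at hqq
      rw [hW, aw_append a q (e j), aw_append a q' (e j)] at hqq
      exact hqq
    · rintro ⟨q, s⟩ hq ⟨q', s'⟩ hq' hqq
      by_contra hneq
      apply hne (Sum.inr (Sum.inl ((q, q', aw a q (e j), aw a q' (e j)),
        (s, s', lw a l q (e j) s, lw a l q' (e j) s'))))
      have h1 : (aw a q (W wd ([x j j] ++ l0 ++ y)), lw a l q (W wd ([x j j] ++ l0 ++ y)) s) =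
        (aw a q' (W wd ([x j j] ++ l0 ++ y)), lw a l q' (W wd ([x j j] ++ l0 ++ y)) s') := hqq
      rw [List.append_assoc, hW, aw_append a q (e j), aw_append a q' (e j), lw_append a l q (e j),
        lw_append a l q' (e j)] at h1
      exact ⟨hq, hq', hneq, rfl, rfl, rfl, rfl, congrArg Prod.fst h1, congrArg Prod.snd h1⟩
    · intro p hp s hs s' hs' hss
      by_contra hneq
      have e5 : W wd (y ++ [x j j] ++ l0) = (W wd y ++ e j) ++ (f j ++ W wd l0) := by
        rw [List.append_assoc, W_append, hW, List.append_assoc]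
      rw [e5] at hss hs hs'
      apply hne (Sum.inr (Sum.inr ((p, aw a (aw a p (W wd y ++ e j)) (f j ++ W wd l0),
        aw a p (W wd y ++ e j)), (s, s', rw' a r (aw a p (W wd y ++ e j)) (f j ++ W wd l0) s,
        rw' a r (aw a p (W wd y ++ e j)) (f j ++ W wd l0) s'))))
      rw [aw_append a p (W wd y ++ e j)] at hs hs'
      rw [rw_append a r p (W wd y ++ e j), rw_append a r p (W wd y ++ e j)] at hss
      exact ⟨hp, rfl, rfl, hs, hs', hneq, rfl, rfl, hss⟩
  have hMix : ∀ i j d, Wit i d → Wit j d → ¬ good (x i j) := by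
    rintro i j (⟨q, q', u, u'⟩ | ⟨⟨q, q', u, u'⟩, ⟨s, s', v, v'⟩⟩ | ⟨⟨p, q, m⟩, ⟨s, s', v, v'⟩⟩) hi hj hg
    · obtain ⟨h1, h2, h3⟩ := crit _ hg
      obtain ⟨i1, i2, i3, i4, i5, i6⟩ := hi
      obtain ⟨j1, j2, j3, j4, j5, j6⟩ := hj
      apply i3
      apply h1 i1 i2
      show aw a q _ = aw a q' _
      rw [hW, aw_append a q (e i), aw_append a q' (e i), i4, i5, j6]
    · obtain ⟨h1, h2, h3⟩ := crit _ hg
      obtain ⟨i1, i2, i3, i4, i5, i6, i7, i8, i9⟩ := hi
      obtain ⟨j1, j2, j3, j4, j5, j6, j7, j8, j9⟩ := hj
      apply i3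
      apply h2 i1 i2
      show (aw a q _, lw a l q _ s) = (aw a q' _, lw a l q' _ s')
      rw [List.append_assoc, hW, aw_append a q (e i), aw_append a q' (e i), lw_append a l q (e i),
        lw_append a l q' (e i), i4, i5, i6, i7, j8, j9]
    · obtain ⟨h1, h2, h3⟩ := crit _ hg
      obtain ⟨i1, i2, i3, i4, i5, i6, i7, i8, i9⟩ := hi
      obtain ⟨j1, j2, j3, j4, j5, j6, j7, j8, j9⟩ := hj
      apply i6
      have e5 : W wd (y ++ [x i j] ++ l0) = (W wd y ++ e i) ++ (f j ++ W wd l0) := by
        rw [List.append_assoc, W_append, hW, List.append_assoc]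
      have h4 := h3 p i1
      rw [e5, aw_append a p (W wd y ++ e i), i2, j3] at h4
      apply h4 i4 i5
      rw [rw_append a r p (W wd y ++ e i), rw_append a r p (W wd y ++ e i), i2, j7, j8, i9]
  choose d hd using hWit
  have hinj : Function.Injective d := by
    intro i j hij
    by_contra hne
    have hj := hd j
    rw [← hij] at hj
    rcases hmix i j hne with h | h
    · exact hMix i j (d i) (hd i) hj h
    · exact hMix j i (d i) hj (hd i) h
  have hcard := Fintype.card_le_of_injective d hinj
  simp only [Fintype.card_sum, Fintype.card_prod] at hcard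
  calc Fintype.card J ≤ _ := hcard
    _ = _ := by ring

end main

end Pool.Agent.D0H16.SW
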