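import Pool.Agent.D0H16.SW.Def
import Pool.Agent.D0H16.SW.Low

set_option autoImplicit false

/-!
# Deterministic sweeping machines: acceptance depends only on the effect of the sweeps
-/

namespace Pool.Agent.D0H16.SW

variable {A : Type} (D : LA A)

lemma Lr_append : ∀ (z : List D.W) (q : D.Q) (z' : List D.W) (q' : D.Q),
    Lr D q (z ++ z') q' ↔ ∃ q1, Lr D q z q1 ∧ Lr D q1 z' q'
  | [], q, z', q' => by
    constructor
    · intro h
      exact ⟨q, rfl, h⟩
    · rintro ⟨q1, rfl, h⟩
      exact h
  | b :: z, q, z', q' => by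
    constructor
    · rintro ⟨q1, b', h1, h2⟩
      obtain ⟨q2, h3, h4⟩ := (Lr_append z q1 z' q').1 h2
      exact ⟨q2, ⟨q1, b', h1, h3⟩, h4⟩
    · rintro ⟨q2, ⟨q1, b', h1, h3⟩, h4⟩
      exact ⟨q1, b', h1, (Lr_append z q1 z' q').2 ⟨q2, h3, h4⟩⟩

open Classical in
/-- the move in direction `d` -/
noncomputable def pick (q : D.Q) (σ : Sym D.W) (d : Bool) : Option (D.Q × D.W) :=
  if h : ∃ z : D.Q × D.W, (z.1, z.2, d) ∈ D.δ q σ then some h.choose else none

variable {D}

lemma pick_iff (hD : D.Deterministic) (q : D.Q) (σ : Sym D.W) (d : Bool) (z : D.Q × D.W) :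
    pick D q σ d = some z ↔ (z.1, z.2, d) ∈ D.δ q σ := by
  unfold pick
  split_ifs with h
  · constructor
    · intro h1
      rw [Option.some.injEq] at h1
      rw [← h1]
      exact h.choose_spec
    · intro h1
      have h2 := hD q σ h.choose_spec h1
      rw [Prod.mk.injEq, Prod.mk.injEq] at h2
      rw [Option.some.injEq]
      exact Prod.ext h2.1 h2.2.1
  · constructor
    · intro h1
      cases h1
    · intro h1
      exact absurd ⟨z, h1⟩ h

variable (D)

/-- the state of the first sweep -/
noncomputable def fA (p : Option D.Q) (x : A) : Option D.Q :=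
  p.bind fun q => (pick D q (Sym.sym (D.emb x)) true).map Prod.fst

/-- the symbol written in the first sweep -/
noncomputable def fO (p : Option D.Q) (x : A) : Option D.W :=
  p.bind fun q => (pick D q (Sym.sym (D.emb x)) true).map Prod.snd

/-- a later move in direction `d` -/
noncomputable def mv (d : Bool) (s : Option D.Q) (b : Option D.W) : Option D.Q :=
  s.bind fun q => b.bind fun c => (pick D q (Sym.sym c) d).map Prod.fst

/-- the turns at the end-markers -/
noncomputable def turn (σ : Sym D.W) (d : Bool) (s : Option D.Q) : Option D.Q :=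
  s.bind fun q => (pick D q σ d).map Prod.fst

/-- sweeps to the right -/
noncomputable def fl (p : Option D.Q) (x : A) (s : Option D.Q) : Option D.Q := mv D true s (fO D p x)

/-- sweeps to the left -/
noncomputable def fr (p : Option D.Q) (x : A) (s : Option D.Q) : Option D.Q := mv D false s (fO D p x)

lemma lw_none (p : Option D.Q) (w : List A) : lw (fA D) (fl D) p w none = none := by
  induction w generalizing p with
  | nil => rfl
  | cons x w ih => exact ih _

lemma rw_none (p : Option D.Q) (w : List A) : rw' (fA D) (fr D) p w none = none := by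
  induction w generalizing p with
  | nil => rfl
  | cons x w ih =>
    show fr D p x (rw' (fA D) (fr D) (fA D p x) w none) = none
    rw [ih]
    rfl

lemma aw_none (w : List A) : aw (fA D) none w = none := by
  induction w with
  | nil => rfl
  | cons x w ih => exact ih

variable {D}

lemma bind_map_iff (hD : D.Deterministic) (q : D.Q) (σ : Sym D.W) (d : Bool) (q' : D.Q) :
    ((some q : Option D.Q).bind fun q => (pick D q σ d).map Prod.fst) = some q' ↔
      ∃ a, (q', a, d) ∈ D.δ q σ := by
  rw [Option.bind_some, Option.map_eq_some_iff]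
  constructor
  · rintro ⟨z, h1, rfl⟩
    exact ⟨z.2, (pick_iff hD q σ d z).1 h1⟩
  · rintro ⟨a, h⟩
    exact ⟨(q', a), (pick_iff hD q σ d (q', a)).2 h, rfl⟩

lemma T_fun (hD : D.Deterministic) : ∀ (w : List A) (q : D.Q) (z : List D.W) (q' : D.Q), T D q w z q' →
    aw (fA D) (some q) w = some q' ∧
    (∀ s s', lw (fA D) (fl D) (some q) w (some s) = some s' ↔ Rr D s z s') ∧
    (∀ s s', rw' (fA D) (fr D) (some q) w (some s) = some s' ↔ Lr D s z.reverse s')
  | [], q, z, q', h => by
    obtain ⟨rfl, rfl⟩ := h
    refine ⟨rfl, fun s s' => ?_, fun s s' => ?_⟩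
    · show some s = some s' ↔ s' = s
      rw [Option.some.injEq]
      exact eq_comm
    · show some s = some s' ↔ s' = s
      rw [Option.some.injEq]
      exact eq_comm
  | x :: w, q, z, q', h => by
    obtain ⟨b, z', q1, rfl, h1, h2⟩ := h
    obtain ⟨g1, g2, g3⟩ := T_fun hD w q1 z' q' h2
    have hp : pick D q (Sym.sym (D.emb x)) true = some (q1, b) := (pick_iff hD _ _ _ _).2 h1
    have hA : fA D (some q) x = some q1 := by
      simp [fA, hp]
    have hO : fO D (some q) x = some b := by
      simp [fO, hp]
    refine ⟨?_, fun s s' => ?_, fun s s' => ?_⟩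
    · show aw (fA D) (fA D (some q) x) w = _
      rw [hA]
      exact g1
    · show lw (fA D) (fl D) (fA D (some q) x) w (fl D (some q) x (some s)) = some s' ↔ _
      rw [hA]
      show lw (fA D) (fl D) (some q1) w (mv D true (some s) (fO D (some q) x)) = some s' ↔ _
      rw [hO]
      constructor
      · intro h
        rcases hm : mv D true (some s) (some b) with _ | s1
        · rw [hm, lw_none] at h
          cases h
        · rw [hm] at h
          have h3 : ∃ a, (s1, a, true) ∈ D.δ s (Sym.sym b) :=
            (bind_map_iff hD s (Sym.sym b) true s1).1 hm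
          obtain ⟨a, h3⟩ := h3
          exact ⟨s1, a, h3, (g2 s1 s').1 h⟩
      · rintro ⟨s1, a, h3, h4⟩
        have hm : mv D true (some s) (some b) = some s1 :=
          (bind_map_iff hD s (Sym.sym b) true s1).2 ⟨a, h3⟩
        rw [hm]
        exact (g2 s1 s').2 h4
    · show fr D (some q) x (rw' (fA D) (fr D) (fA D (some q) x) w (some s)) = some s' ↔ _
      rw [hA]
      show mv D false (rw' (fA D) (fr D) (some q1) w (some s)) (fO D (some q) x) = some s' ↔ _
      rw [hO, List.reverse_cons, Lr_append]
      constructor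
      · intro h
        rcases hm : rw' (fA D) (fr D) (some q1) w (some s) with _ | s1
        · rw [hm] at h
          cases h
        · rw [hm] at h
          have h3 : ∃ a, (s', a, false) ∈ D.δ s1 (Sym.sym b) :=
            (bind_map_iff hD s1 (Sym.sym b) false s').1 h
          obtain ⟨a, h3⟩ := h3
          exact ⟨s1, (g3 s s1).1 hm, s', a, h3, rfl⟩
      · rintro ⟨s1, h3, s2, a, h4, h5⟩
        have h5 : s' = s2 := h5
        rw [(g3 s s1).2 h3]
        rw [← h5] at h4
        exact (bind_map_iff hD s1 (Sym.sym b) false s').2 ⟨a, h4⟩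

lemma T_exists (hD : D.Deterministic) : ∀ (w : List A) (q q' : D.Q),
    aw (fA D) (some q) w = some q' → ∃ z, T D q w z q'
  | [], q, q', h => by
    have h : some q = some q' := h
    rw [Option.some.injEq] at h
    exact ⟨[], rfl, h.symm⟩
  | x :: w, q, q', h => by
    have h : aw (fA D) (fA D (some q) x) w = some q' := h
    rcases hp : pick D q (Sym.sym (D.emb x)) true with _ | ⟨q1, b⟩
    · have hA : fA D (some q) x = none := by
        simp [fA, hp]
      rw [hA, aw_none] at h
      cases h
    · have hA : fA D (some q) x = some q1 := by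
        simp [fA, hp]
      rw [hA] at h
      obtain ⟨z, hz⟩ := T_exists hD w q1 q' h
      exact ⟨b :: z, b, z, q1, rfl, (pick_iff hD _ _ _ _).1 hp, hz⟩

variable (D)

/-- one round trip -/
noncomputable def nxt (w : List A) (s : Option D.Q) : Option D.Q :=
  lw (fA D) (fl D) (some D.start) w (turn D Sym.lend true
    (rw' (fA D) (fr D) (some D.start) w (turn D Sym.rend false s)))

/-- acceptance at the right end-marker -/
def Ex (s : Option D.Q) : Prop := ∃ q, s = some q ∧ ∃ q' a, (q', a, true) ∈ D.δ q Sym.rend ∧ q' ∈ D.final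

variable {D}

lemma nxt_none (w : List A) : nxt D w none = none := by
  show lw (fA D) (fl D) (some D.start) w (turn D Sym.lend true
    (rw' (fA D) (fr D) (some D.start) w none)) = none
  rw [rw_none]
  exact lw_none D _ w

lemma nxt_iter_none (w : List A) (i : ℕ) : (nxt D w)^[i] none = none := by
  induction i with
  | zero => rfl
  | succ i ih => rw [Function.iterate_succ_apply, nxt_none, ih]

lemma nxt_iff (hD : D.Deterministic) {w : List A} {z : List D.W} {s₀ : D.Q} (hT : T D D.start w z s₀)
    (s s' : D.Q) : nxt D w (some s) = some s' ↔ ∃ q1 q2 q3 a a', (q1, a, false) ∈ D.δ s Sym.rend ∧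
      Lr D q1 z.reverse q2 ∧ (q3, a', true) ∈ D.δ q2 Sym.lend ∧ Rr D q3 z s' := by
  obtain ⟨g1, g2, g3⟩ := T_fun hD w D.start z s₀ hT
  constructor
  · intro h
    unfold nxt at h
    rcases h1 : turn D Sym.rend false (some s) with _ | q1
    · rw [h1, rw_none] at h
      have h : lw (fA D) (fl D) (some D.start) w none = some s' := h
      rw [lw_none] at h
      cases h
    · rw [h1] at h
      obtain ⟨a, ha⟩ := (bind_map_iff hD s Sym.rend false q1).1 h1
      rcases h2 : rw' (fA D) (fr D) (some D.start) w (some q1) with _ | q2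
      · rw [h2] at h
        have h : lw (fA D) (fl D) (some D.start) w none = some s' := h
        rw [lw_none] at h
        cases h
      · rw [h2] at h
        rcases h3 : turn D Sym.lend true (some q2) with _ | q3
        · rw [h3, lw_none] at h
          cases h
        · rw [h3] at h
          obtain ⟨a', ha'⟩ := (bind_map_iff hD q2 Sym.lend true q3).1 h3
          exact ⟨q1, q2, q3, a, a', ha, (g3 q1 q2).1 h2, ha', (g2 q3 s').1 h⟩
  · rintro ⟨q1, q2, q3, a, a', h1, h2, h3, h4⟩
    unfold nxt
    have e1 : turn D Sym.rend false (some s) = some q1 := (bind_map_iff hD s Sym.rend false q1).2 ⟨a, h1⟩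
    have e3 : turn D Sym.lend true (some q2) = some q3 := (bind_map_iff hD q2 Sym.lend true q3).2 ⟨a', h3⟩
    rw [e1, (g3 q1 q2).2 h2, e3, (g2 q3 s').2 h4]

lemma AccR_iff (hD : D.Deterministic) {w : List A} {z : List D.W} {s₀ : D.Q} (hT : T D D.start w z s₀)
    (s : D.Q) : AccR D z s ↔ ∃ i, Ex D ((nxt D w)^[i] (some s)) := by
  constructor
  · intro h
    induction h with
    | exit s q a h1 h2 => exact ⟨0, s, rfl, q, a, h1, h2⟩
    | trip s q1 q2 q3 q4 a a' h1 h2 h3 h4 _ ih =>
      obtain ⟨i, hi⟩ := ih
      refine ⟨i + 1, ?_⟩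
      rw [Function.iterate_succ_apply, (nxt_iff hD hT s q4).2 ⟨q1, q2, q3, a, a', h1, h2, h3, h4⟩]
      exact hi
  · rintro ⟨i, hi⟩
    induction i generalizing s with
    | zero =>
      obtain ⟨q, h1, q', a, h2, h3⟩ := hi
      have h1 : some s = some q := h1
      rw [Option.some.injEq] at h1
      rw [← h1] at h2
      exact AccR.exit s q' a h2 h3
    | succ i ih =>
      rw [Function.iterate_succ_apply] at hi
      rcases h1 : nxt D w (some s) with _ | s'
      · rw [h1, nxt_iter_none] at hi
        obtain ⟨q, h, _⟩ := hi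
        cases h
      · rw [h1] at hi
        obtain ⟨q1, q2, q3, a, a', g1, g2, g3, g4⟩ := (nxt_iff hD hT s s').1 h1
        exact AccR.trip s q1 q2 q3 s' a a' g1 g2 g3 g4 (ih s' hi)

/-- acceptance of deterministic sweeping machines in terms of the effects of the sweeps -/
theorem det_accepts (hD : D.Deterministic) (hS : D.Sweeping) (w : List A) :
    D.Accepts w ↔ ∃ i, Ex D ((nxt D w)^[i] (aw (fA D) (some D.start) w)) := by
  rw [accepts_iff hS]
  constructor
  · rintro ⟨z, s, h1, h2⟩
    rw [(T_fun hD w D.start z s h1).1]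
    exact (AccR_iff hD h1 s).1 h2
  · rintro ⟨i, hi⟩
    rcases h : aw (fA D) (some D.start) w with _ | s
    · rw [h, nxt_iter_none] at hi
      obtain ⟨q, h, _⟩ := hi
      cases h
    · rw [h] at hi
      obtain ⟨z, hz⟩ := T_exists hD w D.start s h
      exact ⟨z, s, hz, (AccR_iff hD hz s).2 ⟨i, hi⟩⟩

/-- A list of good blocks can be replaced, in some context of good blocks, by every list of blocks with the
same effect on all sweeps. -/
def Replaceable (D : LA A) {X : Type} (wd : X → List A) (good : X → Prop) : Prop :=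
  ∀ t : List X, (∀ b ∈ t, good b) → ∃ c1 c2 : List X, (∀ b ∈ c1, good b) ∧ (∀ b ∈ c2, good b) ∧
    ∀ t' : List X, (∀ p, aw (fA D) p (W wd t) = aw (fA D) p (W wd t')) →
      (∀ p s, lw (fA D) (fl D) p (W wd t) s = lw (fA D) (fl D) p (W wd t') s) →
      (∀ p s, rw' (fA D) (fr D) p (W wd t) s = rw' (fA D) (fr D) p (W wd t') s) →
      D.Accepts (W wd (c1 ++ t ++ c2)) → D.Accepts (W wd (c1 ++ t' ++ c2))

/-- **The lower bound for deterministic machines.** -/
theorem det_lower {X : Type} (wd : X → List A) (good : X → Prop) (hR : Replaceable D wd good)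
    (hgood : ∀ t : List X, D.Accepts (W wd t) ↔ ∀ x ∈ t, good x)
    {J : Type} [Fintype J] (e f : J → List A) (x : J → J → X) (hx : ∀ i j, wd (x i j) = e i ++ f j)
    (hbad : ∀ j, ¬ good (x j j)) (hmix : ∀ i j, i ≠ j → good (x i j) ∨ good (x j i)) :
    Fintype.card J ≤ 3 * (Nat.card D.Q + 1) ^ 8 := by
  have := D.finQ
  have : Fintype D.Q := Fintype.ofFinite _
  have h := lower (fA D) (fl D) (fr D) wd D.Accepts good hR hgood e f x hx hbad hmix
  have hc : Fintype.card (Option D.Q) = Nat.card D.Q + 1 := by
    rw [Fintype.card_option, Nat.card_eq_fintype_card]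
  rw [hc] at h
  set k := Nat.card D.Q + 1 with hk
  have hk1 : 1 ≤ k := by omega
  have h1 : k ^ 4 ≤ k ^ 8 := Nat.pow_le_pow_right hk1 (by norm_num)
  have h2 : k ^ 3 * k ^ 4 ≤ k ^ 8 := by
    rw [← pow_add]
    exact Nat.pow_le_pow_right hk1 (by norm_num)
  have h3 : k ^ 4 * k ^ 4 = k ^ 8 := by rw [← pow_add]
  omega

/-- sweeping machines have the replacement property -/
theorem replaceable_of_sweeping (hD : D.Deterministic) (hS : D.Sweeping) {X : Type} (wd : X → List A)
    (good : X → Prop) : Replaceable D wd good := by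
  intro t _
  refine ⟨[], [], by simp, by simp, fun t' h1 h2 h3 => ?_⟩
  simp only [List.nil_append, List.append_nil]
  rw [det_accepts hD hS, det_accepts hD hS]
  have h4 : nxt D (W wd t) = nxt D (W wd t') := by
    funext s
    unfold nxt
    rw [h3, h2]
  rw [h4, h1]
  exact id

end Pool.Agent.D0H16.SW
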