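import Pool.Agent.D0H16.SW.Def

set_option autoImplicit false

/-!
# Replacement of a part of the input in which the head never reverses
-/

namespace Pool.Agent.D0H16.SW

variable {A : Type} {M : LA A}

lemma write_other {c : Cfg M} {i : ℕ} (h : i ≠ c.h) (a : M.W) : c.write a i = c.tape i := by
  unfold Cfg.write
  split_ifs
  · rw [Function.update_of_ne h]
  · rfl

lemma write_unseen {c : Cfg M} {b : M.W} (h : c.h ∉ c.seen) (hb : c.tape c.h = Sym.sym b) (a : M.W) :
    c.write a c.h = Sym.sym a := by
  unfold Cfg.write
  rw [if_pos ⟨h, b, hb⟩, Function.update_self]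

lemma write_seen {c : Cfg M} (h : c.h ∈ c.seen) (a : M.W) : c.write a = c.tape := by
  unfold Cfg.write
  rw [if_neg]
  rintro ⟨h1, _⟩
  exact h1 h

lemma write_head {c c' : Cfg M} (ht : c'.tape c'.h = c.tape c.h) (hs : c'.h ∈ c'.seen ↔ c.h ∈ c.seen)
    (a : M.W) : c'.write a c'.h = c.write a c.h := by
  unfold Cfg.write
  by_cases h : c.h ∉ c.seen ∧ ∃ b, c.tape c.h = Sym.sym b
  · rw [if_pos h, if_pos, Function.update_self, Function.update_self]
    rw [hs, ht]
    exact h
  · rw [if_neg h, if_neg, ht]
    rw [hs, ht]
    exact h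

/-- `z'` can replace `z` in all later sweeps -/
def EqZ (M : LA A) (z z' : List M.W) : Prop :=
  (∀ s t, Rr M s z t → Rr M s z' t) ∧ (∀ s t, Lr M s z.reverse t → Lr M s z'.reverse t)

/-- the cells outside the region agree -/
structure Out (L m m' : ℕ) (c c' : Cfg M) : Prop where
  tl : ∀ i, i ≤ L → c'.tape i = c.tape i
  sl : ∀ i, i ≤ L → (i ∈ c'.seen ↔ i ∈ c.seen)
  tr : ∀ k, c'.tape (L + m' + 1 + k) = c.tape (L + m + 1 + k)
  sr : ∀ k, (L + m' + 1 + k ∈ c'.seen ↔ L + m + 1 + k ∈ c.seen)

/-- the region contains `x`, and exactly the first `k` cells of it have been visited -/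
structure Reg (c : Cfg M) (L : ℕ) (x : List M.W) (k : ℕ) : Prop where
  tape : ∀ i b, x[i]? = some b → c.tape (L + 1 + i) = Sym.sym b
  seen : ∀ i, i < k → L + 1 + i ∈ c.seen
  unseen : ∀ i, k ≤ i → i < x.length → L + 1 + i ∉ c.seen

/-- `c1` arises from `c` by a step at a cell of the region -/
lemma out_step {L m m' : ℕ} {c c' : Cfg M} (h : Out L m m' c c') (hL : L < c.h) (hR : c.h ≤ L + m)
    (q : M.Q) (n : ℕ) (a : M.W) (d : Bool) :
    Out L m m' (⟨q, n, c.write a, insert c.h c.seen, d⟩ : Cfg M) c' := by
  refine ⟨fun i hi => ?_, fun i hi => ?_, fun k => ?_, fun k => ?_⟩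
  · show c'.tape i = c.write a i
    rw [write_other (by omega), h.tl i hi]
  · show i ∈ c'.seen ↔ i ∈ insert c.h c.seen
    rw [Set.mem_insert_iff, h.sl i hi]
    constructor
    · exact Or.inr
    · rintro (h1 | h1)
      · omega
      · exact h1
  · show c'.tape _ = c.write a _
    rw [write_other (by omega), h.tr k]
  · show _ ∈ c'.seen ↔ _ ∈ insert c.h c.seen
    rw [Set.mem_insert_iff, h.sr k]
    constructor
    · exact Or.inr
    · rintro (h1 | h1)
      · omega
      · exact h1

lemma out_step' {L m m' : ℕ} {c c' : Cfg M} (h : Out L m m' c c') (hL : L < c'.h) (hR : c'.h ≤ L + m')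
    (q : M.Q) (n : ℕ) (a : M.W) (d : Bool) :
    Out L m m' c (⟨q, n, c'.write a, insert c'.h c'.seen, d⟩ : Cfg M) := by
  refine ⟨fun i hi => ?_, fun i hi => ?_, fun k => ?_, fun k => ?_⟩
  · show c'.write a i = c.tape i
    rw [write_other (by omega), h.tl i hi]
  · show i ∈ insert c'.h c'.seen ↔ i ∈ c.seen
    rw [Set.mem_insert_iff, ← h.sl i hi]
    constructor
    · rintro (h1 | h1)
      · omega
      · exact h1
    · exact Or.inr
  · show c'.write a _ = c.tape _
    rw [write_other (by omega), h.tr k]
  · show _ ∈ insert c'.h c'.seen ↔ _ ∈ c.seen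
    rw [Set.mem_insert_iff, ← h.sr k]
    constructor
    · rintro (h1 | h1)
      · omega
      · exact h1
    · exact Or.inr

/-- a step outside the region, at corresponding cells -/
lemma out_both {L m m' : ℕ} {c c' : Cfg M} (h : Out L m m' c c')
    (hh : (c.h ≤ L ∧ c'.h = c.h) ∨ ∃ k, c.h = L + m + 1 + k ∧ c'.h = L + m' + 1 + k)
    (q : M.Q) (n n' : ℕ) (a : M.W) (d : Bool) :
    Out L m m' (⟨q, n, c.write a, insert c.h c.seen, d⟩ : Cfg M)
      (⟨q, n', c'.write a, insert c'.h c'.seen, d⟩ : Cfg M) := by
  have ht : c'.tape c'.h = c.tape c.h := by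
    rcases hh with ⟨h1, h2⟩ | ⟨k, h1, h2⟩
    · rw [h2]; exact h.tl _ h1
    · rw [h1, h2]; exact h.tr k
  have hs : c'.h ∈ c'.seen ↔ c.h ∈ c.seen := by
    rcases hh with ⟨h1, h2⟩ | ⟨k, h1, h2⟩
    · rw [h2]; exact h.sl _ h1
    · rw [h1, h2]; exact h.sr k
  have hw := write_head ht hs a
  refine ⟨fun i hi => ?_, fun i hi => ?_, fun k => ?_, fun k => ?_⟩
  · show c'.write a i = c.write a i
    by_cases hi' : i = c.h
    · have : c'.h = c.h := by
        rcases hh with ⟨h1, h2⟩ | ⟨k, h1, h2⟩
        · exact h2
        · omega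
      rw [hi', ← hw, this]
    · have : i ≠ c'.h := by
        rcases hh with ⟨h1, h2⟩ | ⟨k, h1, h2⟩
        · omega
        · omega
      rw [write_other hi', write_other this, h.tl i hi]
  · show i ∈ insert c'.h c'.seen ↔ i ∈ insert c.h c.seen
    rw [Set.mem_insert_iff, Set.mem_insert_iff, h.sl i hi]
    have : i = c'.h ↔ i = c.h := by
      rcases hh with ⟨h1, h2⟩ | ⟨k, h1, h2⟩
      · rw [h2]
      · constructor <;> intro h3 <;> omega
    rw [this]
  · show c'.write a _ = c.write a _
    by_cases hi' : L + m + 1 + k = c.h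
    · have : c'.h = L + m' + 1 + k := by
        rcases hh with ⟨h1, h2⟩ | ⟨k', h1, h2⟩
        · omega
        · omega
      rw [hi', ← hw, this]
    · have : L + m' + 1 + k ≠ c'.h := by
        rcases hh with ⟨h1, h2⟩ | ⟨k', h1, h2⟩
        · omega
        · omega
      rw [write_other hi', write_other this, h.tr k]
  · show _ ∈ insert c'.h c'.seen ↔ _ ∈ insert c.h c.seen
    rw [Set.mem_insert_iff, Set.mem_insert_iff, h.sr k]
    have : L + m' + 1 + k = c'.h ↔ L + m + 1 + k = c.h := by
      rcases hh with ⟨h1, h2⟩ | ⟨k', h1, h2⟩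
      · constructor <;> intro h3 <;> omega
      · constructor <;> intro h3 <;> omega
    rw [this]

/-- a step outside of the region does not change the region -/
lemma reg_out {c : Cfg M} {L : ℕ} {x : List M.W} {k : ℕ} (h : Reg c L x k)
    (hh : c.h ≤ L ∨ L + x.length < c.h) (q : M.Q) (n : ℕ) (a : M.W) (d : Bool) :
    Reg (⟨q, n, c.write a, insert c.h c.seen, d⟩ : Cfg M) L x k := by
  refine ⟨fun i b hi => ?_, fun i hi => Set.mem_insert_of_mem _ (h.seen i hi), fun i h1 h2 h3 => ?_⟩
  · show c.write a _ = _
    have : i < x.length := (List.getElem?_eq_some_iff.1 hi).1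
    rw [write_other (by omega)]
    exact h.tape i b hi
  · rcases h3 with h3 | h3
    · omega
    · exact h.unseen i h1 h2 h3

/-- a step at a visited cell of the region does not change the region -/
lemma reg_seen {c : Cfg M} {L : ℕ} {x : List M.W} (h : Reg c L x x.length)
    (h1 : L < c.h) (h2 : c.h ≤ L + x.length) (q : M.Q) (n : ℕ) (a : M.W) (d : Bool) :
    Reg (⟨q, n, c.write a, insert c.h c.seen, d⟩ : Cfg M) L x x.length := by
  have hs : c.h ∈ c.seen := by
    have := h.seen (c.h - L - 1) (by omega)
    rwa [show L + 1 + (c.h - L - 1) = c.h by omega] at this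
  refine ⟨fun i b hi => ?_, fun i hi => Set.mem_insert_of_mem _ (h.seen i hi), fun i h3 h4 => ?_⟩
  · show c.write a _ = _
    rw [write_seen hs]
    exact h.tape i b hi
  · omega

/-- the first visit to a cell of the region -/
lemma reg_first {c : Cfg M} {L : ℕ} {z : List M.W} {b₀ : M.W} {y : List M.W}
    (h : Reg c L (z ++ b₀ :: y) z.length) (h1 : c.h = L + 1 + z.length) (q : M.Q) (n : ℕ) (b : M.W)
    (d : Bool) :
    Reg (⟨q, n, c.write b, insert c.h c.seen, d⟩ : Cfg M) L ((z ++ [b]) ++ y) (z ++ [b]).length := by
  have hu : c.h ∉ c.seen := by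
    rw [h1]
    exact h.unseen _ le_rfl (by simp)
  have hb : c.tape c.h = Sym.sym b₀ := by
    rw [h1]
    exact h.tape _ _ (by simp)
  refine ⟨fun i b' hi => ?_, fun i hi => ?_, fun i h3 h4 => ?_⟩
  · show c.write b _ = _
    rcases lt_trichotomy i z.length with h5 | h5 | h5
    · rw [write_other (by omega)]
      apply h.tape
      rw [List.append_assoc, List.getElem?_append_left h5] at hi
      rw [List.getElem?_append_left h5]
      exact hi
    · rw [h5, ← h1, write_unseen hu hb]
      subst h5
      rw [List.append_assoc, List.getElem?_append_right le_rfl] at hi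
      simp at hi
      rw [hi]
    · rw [write_other (by omega)]
      apply h.tape
      rw [List.append_assoc, List.getElem?_append_right h5.le] at hi
      rw [List.getElem?_append_right h5.le]
      obtain ⟨k, hk⟩ : ∃ k, i - z.length = k + 1 := ⟨i - z.length - 1, by omega⟩
      rw [hk] at hi ⊢
      exact hi
  · rw [List.length_append, List.length_singleton] at hi
    rcases Nat.lt_or_ge i z.length with h5 | h5
    · exact Set.mem_insert_of_mem _ (h.seen i h5)
    · have : L + 1 + i = c.h := by omega
      rw [this]
      exact Set.mem_insert _ _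
  · rw [List.length_append, List.length_singleton] at h3
    rintro (h5 | h5)
    · omega
    · apply h.unseen i (by omega) _ h5
      simp at h4 ⊢
      omega

/-- from `c` the machine can accept -/
def Acc' (c : Cfg M) : Prop := ∃ e, Relation.ReflTransGen (Step M) c e ∧ Exits M e

lemma Acc'.step {c c' : Cfg M} (h : Acc' c') (hs : Step M c c') : Acc' c := by
  obtain ⟨e, h1, h2⟩ := h
  exact ⟨e, Relation.ReflTransGen.head hs h1, h2⟩

/-- the first sweep over the region of the second machine -/
lemma cross_first {L m m' : ℕ} {c : Cfg M} : ∀ (w : List A) (z z' : List M.W) (c' : Cfg M) (t : M.Q),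
    z.length + w.length = m' → Reg c' L (z ++ w.map M.emb) z.length → c'.h = L + 1 + z.length →
    c'.dir = true → T M c'.q w z' t → Out L m m' c c' →
    (∀ c2 : Cfg M, Reg c2 L (z ++ z') m' → c2.h = L + m' + 1 → c2.dir = true → c2.q = t →
      Out L m m' c c2 → Acc' c2) → Acc' c'
  | [], z, z', c', t, hl, hr, hh, hd, hT, ho, H => by
    obtain ⟨rfl, rfl⟩ := hT
    simp only [List.length_nil, Nat.add_zero, List.map_nil, List.append_nil] at hl hr H
    rw [hl] at hr hh
    exact H c' hr (by omega) hd rfl ho
  | a :: w, z, z', c', t, hl, hr, hh, hd, hT, ho, H => by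
    obtain ⟨b, z'', q1, rfl, h1, h2⟩ := hT
    rw [List.length_cons] at hl
    have ht : c'.tape c'.h = Sym.sym (M.emb a) := by
      rw [hh]
      exact hr.tape _ _ (by simp)
    have hs : Step M c' ⟨q1, c'.h + 1, c'.write b, insert c'.h c'.seen, true⟩ := by
      apply Step.right
      · rw [ht]; exact h1
      · rw [ht]; intro h; cases h
    refine Acc'.step ?_ hs
    refine cross_first w (z ++ [b]) z'' _ t (by simp; omega) ?_ ?_ rfl h2
      (out_step' ho (by omega) (by omega) _ _ _ _) (by simpa using H)
    · exact reg_first (by simpa using hr) hh _ _ _ _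
    · show c'.h + 1 = _
      rw [hh]
      simp
      omega

/-- a later sweep to the right over the region of the second machine -/
lemma cross_right {L m m' : ℕ} {c : Cfg M} {z : List M.W} (hz : z.length = m') :
    ∀ (z2 z1 : List M.W) (c' : Cfg M) (t : M.Q),
    z = z1 ++ z2 → Reg c' L z m' → c'.h = L + 1 + z1.length →
    c'.dir = true → Rr M c'.q z2 t → Out L m m' c c' →
    (∀ c2 : Cfg M, Reg c2 L z m' → c2.h = L + m' + 1 → c2.dir = true → c2.q = t →
      Out L m m' c c2 → Acc' c2) → Acc' c'
  | [], z1, c', t, hl, hr, hh, hd, hT, ho, H => by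
    have hT : t = c'.q := hT
    rw [List.append_nil] at hl
    rw [← hl, hz] at hh
    exact H c' hr (by omega) hd hT.symm ho
  | b :: z2, z1, c', t, hl, hr, hh, hd, hT, ho, H => by
    obtain ⟨q1, b', h1, h2⟩ := hT
    have hlen : z1.length + z2.length + 1 = m' := by
      rw [← hz, hl]; simp; omega
    have ht : c'.tape c'.h = Sym.sym b := by
      rw [hh]
      exact hr.tape _ _ (by rw [hl]; simp)
    have hs : Step M c' ⟨q1, c'.h + 1, c'.write b', insert c'.h c'.seen, true⟩ := by
      apply Step.right
      · rw [ht]; exact h1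
      · rw [ht]; intro h; cases h
    refine Acc'.step ?_ hs
    refine cross_right hz z2 (z1 ++ [b]) _ t (by rw [hl]; simp) ?_ ?_ rfl h2
      (out_step' ho (by omega) (by omega) _ _ _ _) H
    · rw [← hz] at hr ⊢
      exact reg_seen hr (by omega) (by omega) _ _ _ _
    · show c'.h + 1 = _
      rw [hh]
      simp
      omega

/-- a later sweep to the left over the region of the second machine -/
lemma cross_left {L m m' : ℕ} {c : Cfg M} {z : List M.W} (hz : z.length = m') :
    ∀ (r z2 : List M.W) (c' : Cfg M) (t : M.Q),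
    z = r.reverse ++ z2 → Reg c' L z m' → c'.h = L + r.length →
    c'.dir = false → Lr M c'.q r t → Out L m m' c c' →
    (∀ c2 : Cfg M, Reg c2 L z m' → c2.h = L → c2.dir = false → c2.q = t →
      Out L m m' c c2 → Acc' c2) → Acc' c'
  | [], z2, c', t, hl, hr, hh, hd, hT, ho, H => by
    have hT : t = c'.q := hT
    exact H c' hr hh hd hT.symm ho
  | b :: r, z2, c', t, hl, hr, hh, hd, hT, ho, H => by
    obtain ⟨q1, b', h1, h2⟩ := hT
    have hlen : r.length + z2.length + 1 = m' := by
      rw [← hz, hl]; simp; omega
    rw [List.length_cons] at hh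
    have ht : c'.tape c'.h = Sym.sym b := by
      have := hr.tape r.length b (by rw [hl]; simp)
      rwa [show L + 1 + r.length = c'.h by omega] at this
    have hs : Step M c' ⟨q1, c'.h - 1, c'.write b', insert c'.h c'.seen, false⟩ := by
      apply Step.left
      · rw [ht]; exact h1
      · rw [ht]; intro h; cases h
    refine Acc'.step ?_ hs
    refine cross_left hz r (b :: z2) _ t (by rw [hl]; simp) ?_ ?_ rfl h2
      (out_step' ho (by omega) (by omega) _ _ _ _) H
    · rw [← hz] at hr ⊢
      exact reg_seen hr (by omega) (by omega) _ _ _ _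
    · show c'.h - 1 = _
      omega

/-- corresponding configurations with the head outside the region -/
def Sim (L : ℕ) (w w' : List A) (c c' : Cfg M) : Prop :=
  c'.q = c.q ∧ c'.dir = c.dir ∧ Out L w.length w'.length c c' ∧
  ((c.h ≤ L ∧ c'.h = c.h ∧ Reg c L (w.map M.emb) 0 ∧ Reg c' L (w'.map M.emb) 0) ∨
   (((c.h ≤ L ∧ c'.h = c.h) ∨ ∃ k, c.h = L + w.length + 1 + k ∧ c'.h = L + w'.length + 1 + k) ∧
    ∃ z z' : List M.W, z.length = w.length ∧ z'.length = w'.length ∧ EqZ M z z' ∧
      Reg c L z w.length ∧ Reg c' L z' w'.length))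

/-- a step without reversal in the region -/
def CStep (M : LA A) (L m : ℕ) (c c1 : Cfg M) : Prop :=
  Step M c c1 ∧ (L < c.h → c.h ≤ L + m → c1.dir = c.dir)

/-- what is known about a configuration `c` of an accepting computation without reversals in the region -/
structure Stat (L : ℕ) (w w' : List A) (c : Cfg M) : Prop where
  out : ∀ c', Sim L w w' c c' → Acc' c'
  first : ∀ (z1 : List M.W) (w2 : List A), z1.length + w2.length = w.length →
    Reg c L (z1 ++ w2.map M.emb) z1.length → c.h = L + 1 + z1.length → c.dir = true →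
    ∃ z2 t, T M c.q w2 z2 t ∧ ∀ (z' : List M.W) (c' : Cfg M), z'.length = w'.length →
      EqZ M (z1 ++ z2) z' → Out L w.length w'.length c c' → Reg c' L z' w'.length →
      c'.h = L + w'.length + 1 → c'.dir = true → c'.q = t → Acc' c'
  right : ∀ z1 z2 : List M.W, z1.length + z2.length = w.length →
    Reg c L (z1 ++ z2) w.length → c.h = L + 1 + z1.length → c.dir = true →
    ∃ t, Rr M c.q z2 t ∧ ∀ (z' : List M.W) (c' : Cfg M), z'.length = w'.length →
      EqZ M (z1 ++ z2) z' → Out L w.length w'.length c c' → Reg c' L z' w'.length →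
      c'.h = L + w'.length + 1 → c'.dir = true → c'.q = t → Acc' c'
  left : ∀ r z2 : List M.W, r.length + z2.length = w.length →
    Reg c L (r.reverse ++ z2) w.length → c.h = L + r.length → c.dir = false →
    ∃ t, Lr M c.q r t ∧ ∀ (z' : List M.W) (c' : Cfg M), z'.length = w'.length →
      EqZ M (r.reverse ++ z2) z' → Out L w.length w'.length c c' → Reg c' L z' w'.length →
      c'.h = L → c'.dir = false → c'.q = t → Acc' c'

/-- the boundary cases follow from `out` -/
lemma stat_of {L : ℕ} {w w' : List A} {c : Cfg M} (hout : ∀ c', Sim L w w' c c' → Acc' c')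
    (first : ∀ (z1 : List M.W) (a : A) (w2 : List A), z1.length + (a :: w2).length = w.length →
      Reg c L (z1 ++ (a :: w2).map M.emb) z1.length → c.h = L + 1 + z1.length → c.dir = true →
      c.tape c.h = Sym.sym (M.emb a) →
      ∃ z2 t, T M c.q (a :: w2) z2 t ∧ ∀ (z' : List M.W) (c' : Cfg M), z'.length = w'.length →
        EqZ M (z1 ++ z2) z' → Out L w.length w'.length c c' → Reg c' L z' w'.length →
        c'.h = L + w'.length + 1 → c'.dir = true → c'.q = t → Acc' c')
    (right : ∀ (z1 : List M.W) (b : M.W) (z2 : List M.W), z1.length + (b :: z2).length = w.length →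
      Reg c L (z1 ++ b :: z2) w.length → c.h = L + 1 + z1.length → c.dir = true →
      c.tape c.h = Sym.sym b →
      ∃ t, Rr M c.q (b :: z2) t ∧ ∀ (z' : List M.W) (c' : Cfg M), z'.length = w'.length →
        EqZ M (z1 ++ b :: z2) z' → Out L w.length w'.length c c' → Reg c' L z' w'.length →
        c'.h = L + w'.length + 1 → c'.dir = true → c'.q = t → Acc' c')
    (left : ∀ (b : M.W) (r z2 : List M.W), (b :: r).length + z2.length = w.length →
      Reg c L ((b :: r).reverse ++ z2) w.length → c.h = L + (b :: r).length → c.dir = false →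
      c.tape c.h = Sym.sym b →
      ∃ t, Lr M c.q (b :: r) t ∧ ∀ (z' : List M.W) (c' : Cfg M), z'.length = w'.length →
        EqZ M ((b :: r).reverse ++ z2) z' → Out L w.length w'.length c c' → Reg c' L z' w'.length →
        c'.h = L → c'.dir = false → c'.q = t → Acc' c') : Stat L w w' c := by
  refine ⟨hout, ?_, ?_, ?_⟩
  · intro z1 w2 hl hr hh hd
    rcases w2 with _ | ⟨a, w2⟩
    · refine ⟨[], c.q, ⟨rfl, rfl⟩, fun z' c' h1 h2 h3 h4 h5 h6 h7 => hout c' ?_⟩
      simp only [List.length_nil, Nat.add_zero, List.map_nil, List.append_nil] at hl hr h2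
      rw [hl] at hr hh
      exact ⟨h7, by rw [h6, hd], h3, Or.inr ⟨Or.inr ⟨0, by omega, by omega⟩, z1, z', hl, h1, h2, hr, h4⟩⟩
    · refine first z1 a w2 hl hr hh hd ?_
      rw [hh]
      exact hr.tape _ _ (by simp)
  · intro z1 z2 hl hr hh hd
    rcases z2 with _ | ⟨b, z2⟩
    · refine ⟨c.q, rfl, fun z' c' h1 h2 h3 h4 h5 h6 h7 => hout c' ?_⟩
      simp only [List.length_nil, Nat.add_zero, List.append_nil] at hl hr h2
      rw [hl] at hh
      exact ⟨h7, by rw [h6, hd], h3, Or.inr ⟨Or.inr ⟨0, by omega, by omega⟩, z1, z', hl, h1, h2, hr, h4⟩⟩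
    · refine right z1 b z2 hl hr hh hd ?_
      rw [hh]
      exact hr.tape _ _ (by simp)
  · intro r z2 hl hr hh hd
    rcases r with _ | ⟨b, r⟩
    · refine ⟨c.q, rfl, fun z' c' h1 h2 h3 h4 h5 h6 h7 => hout c' ?_⟩
      simp only [List.length_nil, Nat.zero_add, Nat.add_zero, List.reverse_nil, List.nil_append] at hl hr h2 hh
      exact ⟨h7, by rw [h6, hd], h3, Or.inr ⟨Or.inl ⟨by omega, by omega⟩, z2, z', hl, h1, h2, hr, h4⟩⟩
    · refine left b r z2 hl hr hh hd ?_
      have := hr.tape r.length b (by simp)
      rw [List.length_cons] at hh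
      rwa [show L + 1 + r.length = c.h by omega] at this

theorem stat {L : ℕ} {w w' : List A}
    (H : ∀ p z q, T M p w z q → ∃ z', T M p w' z' q ∧ EqZ M z z') (c e : Cfg M)
    (hce : Relation.ReflTransGen (CStep M L w.length) c e) (he : Exits M e) : Stat L w w' c := by
  induction hce using Relation.ReflTransGen.head_induction_on with
  | refl =>
    obtain ⟨h1, h2⟩ := he
    apply stat_of
    · rintro c' ⟨g1, g2, g3, g4⟩
      refine ⟨c', Relation.ReflTransGen.refl, ?_, ?_⟩
      · rcases g4 with ⟨k1, k2, -⟩ | ⟨⟨k1, k2⟩ | ⟨k, k1, k2⟩, -⟩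
        · rw [k2, g3.tl _ k1, h1]
        · rw [k2, g3.tl _ k1, h1]
        · rw [k2, g3.tr k, ← k1, h1]
      · rw [g1]
        exact h2
    · intro z1 a w2 _ _ _ _ h3
      rw [h1] at h3
      cases h3
    · intro z1 a w2 _ _ _ _ h3
      rw [h1] at h3
      cases h3
    · intro z1 a w2 _ _ _ _ h3
      rw [h1] at h3
      cases h3
  | head hs hrest ih =>
    rename_i c c1
    obtain ⟨hs, hclean⟩ := hs
    apply stat_of
    · -- outside
      rintro c' ⟨g1, g2, g3, g4⟩
      have hcor : (c.h ≤ L ∧ c'.h = c.h) ∨ ∃ k, c.h = L + w.length + 1 + k ∧ c'.h = L + w'.length + 1 + k := by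
        rcases g4 with ⟨k1, k2, -⟩ | ⟨k1, -⟩
        · exact Or.inl ⟨k1, k2⟩
        · exact k1
      have ht : c'.tape c'.h = c.tape c.h := by
        rcases hcor with ⟨k1, k2⟩ | ⟨k, k1, k2⟩
        · rw [k2, g3.tl _ k1]
        · rw [k2, g3.tr k, ← k1]
      have hregc : ∀ x : List M.W, x.length = w.length → (c.h ≤ L ∨ L + x.length < c.h) := by
        intro x hx
        rcases hcor with ⟨k1, k2⟩ | ⟨k, k1, k2⟩
        · exact Or.inl k1
        · right; omega
      have hregc' : ∀ x : List M.W, x.length = w'.length → (c'.h ≤ L ∨ L + x.length < c'.h) := by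
        intro x hx
        rcases hcor with ⟨k1, k2⟩ | ⟨k, k1, k2⟩
        · left; omega
        · right; omega
      cases hs with
      | right q a h1 h2 =>
        have hs' : Step M c' ⟨q, c'.h + 1, c'.write a, insert c'.h c'.seen, true⟩ := by
          apply Step.right
          · rw [ht, g1]; exact h1
          · rw [ht]; exact h2
        refine Acc'.step ?_ hs'
        have ho := out_both g3 hcor q (c.h + 1) (c'.h + 1) a true
        by_cases hL : c.h = L
        · -- crossing to the right
          rcases g4 with ⟨k1, k2, k3, k4⟩ | ⟨k1, z, z', k2, k3, k4, k5, k6⟩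
          · obtain ⟨z2, t, m1, m2⟩ := ih.first [] w (by simp)
              (reg_out k3 (hregc _ (by simp)) _ _ _ _) (by show c.h + 1 = _; simp; omega) rfl
            obtain ⟨z', m3, m4⟩ := H q z2 t m1
            have hlz : z'.length = w'.length := T_length M _ _ _ _ m3
            refine cross_first (c := ⟨q, c.h + 1, c.write a, insert c.h c.seen, true⟩) (m := w.length)
              (m' := w'.length) w' [] z' _ t (by simp) ?_
              (by show c'.h + 1 = _; simp; omega) rfl m3 ho ?_
            · exact reg_out k4 (hregc' _ (by simp)) _ _ _ _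
            · intro c2 n1 n2 n3 n4 n5
              exact m2 z' c2 hlz (by simpa using m4) n5 (by simpa using n1) n2 n3 n4
          · have hh' : c'.h = L := by
              rcases k1 with ⟨a1, a2⟩ | ⟨k, a1, a2⟩
              · omega
              · omega
            obtain ⟨t, m1, m2⟩ := ih.right [] z (by simpa using k2)
              (by have := reg_out (x := z) (k := w.length) k5 (hregc _ k2) q (c.h + 1) a true
                  simpa using this) (by show c.h + 1 = _; simp; omega) rfl
            refine cross_right (c := ⟨q, c.h + 1, c.write a, insert c.h c.seen, true⟩) (m := w.length)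
              (m' := w'.length) k3 z' [] _ t (by simp) ?_
              (by show c'.h + 1 = _; rw [hh']; rfl) rfl (k4.1 _ _ m1) ho ?_
            · exact reg_out k6 (hregc' _ k3) _ _ _ _
            · intro c2 n1 n2 n3 n4 n5
              exact m2 z' c2 k3 (by simpa using k4) n5 n1 n2 n3 n4
        · -- the head stays outside
          apply ih.out
          refine ⟨rfl, rfl, ho, ?_⟩
          rcases g4 with ⟨k1, k2, k3, k4⟩ | ⟨k1, z, z', k2, k3, k4, k5, k6⟩
          · refine Or.inl ⟨?_, ?_, reg_out k3 (hregc _ (by simp)) _ _ _ _,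
              reg_out k4 (hregc' _ (by simp)) _ _ _ _⟩
            · show c.h + 1 ≤ L
              omega
            · show c'.h + 1 = c.h + 1
              omega
          · refine Or.inr ⟨?_, z, z', k2, k3, k4, reg_out k5 (hregc _ k2) _ _ _ _,
              reg_out k6 (hregc' _ k3) _ _ _ _⟩
            rcases k1 with ⟨k1, k1'⟩ | ⟨k, k1, k1'⟩
            · left
              refine ⟨?_, ?_⟩
              · show c.h + 1 ≤ L
                omega
              · show c'.h + 1 = c.h + 1
                omega
            · right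
              refine ⟨k + 1, ?_, ?_⟩
              · show c.h + 1 = _
                omega
              · show c'.h + 1 = _
                omega
      | left q a h1 h2 =>
        have hs' : Step M c' ⟨q, c'.h - 1, c'.write a, insert c'.h c'.seen, false⟩ := by
          apply Step.left
          · rw [ht, g1]; exact h1
          · rw [ht]; exact h2
        refine Acc'.step ?_ hs'
        have ho := out_both g3 hcor q (c.h - 1) (c'.h - 1) a false
        by_cases hL : c.h = L + w.length + 1
        · -- crossing to the left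
          rcases g4 with ⟨k1, k2, k3, k4⟩ | ⟨k1, z, z', k2, k3, k4, k5, k6⟩
          · exfalso
            rw [hL] at k1
            exact absurd k1 (by omega)
          · have hh' : c'.h = L + w'.length + 1 := by
              rcases k1 with ⟨k1, k1'⟩ | ⟨k, k1, k1'⟩
              · omega
              · omega
            obtain ⟨t, m1, m2⟩ := ih.left z.reverse [] (by simpa using k2)
              (by have := reg_out (x := z) (k := w.length) k5 (hregc _ k2) q (c.h - 1) a false
                  simpa using this) (by show c.h - 1 = _; simp; omega) rfl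
            refine cross_left (c := ⟨q, c.h - 1, c.write a, insert c.h c.seen, false⟩) (m := w.length)
              (m' := w'.length) k3 z'.reverse [] _ t (by simp) ?_
              (by show c'.h - 1 = _; simp; omega) rfl (k4.2 _ _ m1) ho ?_
            · exact reg_out k6 (hregc' _ k3) _ _ _ _
            · intro c2 n1 n2 n3 n4 n5
              exact m2 z' c2 k3 (by simpa using k4) n5 n1 n2 n3 n4
        · apply ih.out
          refine ⟨rfl, rfl, ho, ?_⟩
          rcases g4 with ⟨k1, k2, k3, k4⟩ | ⟨k1, z, z', k2, k3, k4, k5, k6⟩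
          · refine Or.inl ⟨?_, ?_, reg_out k3 (hregc _ (by simp)) _ _ _ _,
              reg_out k4 (hregc' _ (by simp)) _ _ _ _⟩
            · show c.h - 1 ≤ L
              omega
            · show c'.h - 1 = c.h - 1
              omega
          · refine Or.inr ⟨?_, z, z', k2, k3, k4, reg_out k5 (hregc _ k2) _ _ _ _,
              reg_out k6 (hregc' _ k3) _ _ _ _⟩
            rcases k1 with ⟨k1, k1'⟩ | ⟨k, k1, k1'⟩
            · left
              refine ⟨?_, ?_⟩
              · show c.h - 1 ≤ L
                omega
              · show c'.h - 1 = c.h - 1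
                omega
            · right
              refine ⟨k - 1, ?_, ?_⟩
              · show c.h - 1 = _
                omega
              · show c'.h - 1 = _
                omega
    · intro z1 a w2 hl hr hh hd ht
      rw [List.length_cons] at hl
      have hd1 := hclean (by omega) (by omega)
      cases hs with
      | left q b h1 h2 =>
        exfalso
        rw [hd] at hd1
        exact absurd hd1 (by simp)
      | right q b h1 h2 =>
        rw [ht] at h1
        have hr1 := reg_first (y := w2.map M.emb) (by simpa using hr) hh q (c.h + 1) b true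
        obtain ⟨z2, t, m1, m2⟩ := ih.first (z1 ++ [b]) w2 (by simp; omega) hr1
          (by show c.h + 1 = _; simp; omega) rfl
        refine ⟨b :: z2, t, ⟨b, z2, q, rfl, h1, m1⟩, fun z' c' n1 n2 n3 n4 n5 n6 n7 => ?_⟩
        exact m2 z' c' n1 (by simpa using n2) (out_step n3 (by omega) (by omega) _ _ _ _) n4 n5 n6 n7
    · intro z1 b z2 hl hr hh hd ht
      rw [List.length_cons] at hl
      have hd1 := hclean (by omega) (by omega)
      cases hs with
      | left q b' h1 h2 =>
        exfalso
        rw [hd] at hd1
        exact absurd hd1 (by simp)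
      | right q b' h1 h2 =>
        rw [ht] at h1
        have hlen : (z1 ++ b :: z2).length = w.length := by simp; omega
        have hr1 : Reg (⟨q, c.h + 1, c.write b', insert c.h c.seen, true⟩ : Cfg M) L
            (z1 ++ b :: z2) w.length := by
          rw [← hlen] at hr ⊢
          exact reg_seen hr (by omega) (by omega) _ _ _ _
        obtain ⟨t, m1, m2⟩ := ih.right (z1 ++ [b]) z2 (by simp; omega) (by simpa using hr1)
          (by show c.h + 1 = _; simp; omega) rfl
        refine ⟨t, ⟨q, b', h1, m1⟩, fun z' c' n1 n2 n3 n4 n5 n6 n7 => ?_⟩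
        exact m2 z' c' n1 (by simpa using n2) (out_step n3 (by omega) (by omega) _ _ _ _) n4 n5 n6 n7
    · intro b r z2 hl hr hh hd ht
      rw [List.length_cons] at hl hh
      have hd1 := hclean (by omega) (by omega)
      cases hs with
      | right q b' h1 h2 =>
        exfalso
        rw [hd] at hd1
        exact absurd hd1 (by simp)
      | left q b' h1 h2 =>
        rw [ht] at h1
        have hlen : ((b :: r).reverse ++ z2).length = w.length := by simp; omega
        have hr1 : Reg (⟨q, c.h - 1, c.write b', insert c.h c.seen, false⟩ : Cfg M) L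
            ((b :: r).reverse ++ z2) w.length := by
          rw [← hlen] at hr ⊢
          exact reg_seen hr (by omega) (by omega) _ _ _ _
        obtain ⟨t, m1, m2⟩ := ih.left r (b :: z2) (by simp; omega) (by simpa using hr1)
          (by show c.h - 1 = _; omega) rfl
        refine ⟨t, ⟨q, b', h1, m1⟩, fun z' c' n1 n2 n3 n4 n5 n6 n7 => ?_⟩
        exact m2 z' c' n1 (by simpa using n2) (out_step n3 (by omega) (by omega) _ _ _ _) n4 n5 n6 n7

/-- **Replacement.**  If an accepting computation on `u ++ w ++ v` never reverses in `w`, and `w'` has the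
same effects as `w`, then `u ++ w' ++ v` is accepted. -/
theorem replace {u v w w' : List A}
    (H : ∀ p z q, T M p w z q → ∃ z', T M p w' z' q ∧ EqZ M z z') (e : Cfg M)
    (hce : Relation.ReflTransGen (CStep M u.length w.length) (init M (u ++ w ++ v)) e)
    (he : Exits M e) : M.Accepts (u ++ w' ++ v) := by
  have hst := stat H _ e hce he
  have hreg : ∀ x : List A, Reg (init M (u ++ x ++ v)) u.length (x.map M.emb) 0 := by
    intro x
    refine ⟨fun i b hi => ?_, fun i hi => by omega, fun i _ _ => ?_⟩
    · show ftape ((u ++ x ++ v).map M.emb) (u.length + 1 + i) = _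
      have : u.length + 1 + i = (u.length + i) + 1 := by omega
      rw [this]
      have hlt : i < (x.map M.emb).length := (List.getElem?_eq_some_iff.1 hi).1
      show ((((u ++ x ++ v).map M.emb)[u.length + i]?).elim Sym.rend Sym.sym : Sym M.W) = _
      rw [List.map_append, List.map_append, List.append_assoc,
        List.getElem?_append_right (by simp), List.length_map, Nat.add_sub_cancel_left,
        List.getElem?_append_left hlt, hi]
      rfl
    · intro h
      exact h
  have hout : Out u.length w.length w'.length (init M (u ++ w ++ v)) (init M (u ++ w' ++ v)) := by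
    refine ⟨fun i hi => ?_, fun i _ => Iff.rfl, fun k => ?_, fun k => Iff.rfl⟩
    · show ftape ((u ++ w' ++ v).map M.emb) i = ftape ((u ++ w ++ v).map M.emb) i
      rcases i with _ | i
      · rfl
      · show ((((u ++ w' ++ v).map M.emb)[i]?).elim Sym.rend Sym.sym : Sym M.W) =
          ((((u ++ w ++ v).map M.emb)[i]?).elim Sym.rend Sym.sym : Sym M.W)
        rw [List.append_assoc, List.append_assoc, List.map_append, List.map_append (l₁ := u),
          List.getElem?_append_left (l₁ := u.map M.emb) (l₂ := (w' ++ v).map M.emb) (by simp; omega),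
          List.getElem?_append_left (l₁ := u.map M.emb) (l₂ := (w ++ v).map M.emb) (by simp; omega)]
    · show ftape ((u ++ w' ++ v).map M.emb) (u.length + w'.length + 1 + k) =
        ftape ((u ++ w ++ v).map M.emb) (u.length + w.length + 1 + k)
      have e1 : u.length + w'.length + 1 + k = (u.length + w'.length + k) + 1 := by omega
      have e2 : u.length + w.length + 1 + k = (u.length + w.length + k) + 1 := by omega
      rw [e1, e2]
      show ((((u ++ w' ++ v).map M.emb)[u.length + w'.length + k]?).elim Sym.rend Sym.sym : Sym M.W) =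
          ((((u ++ w ++ v).map M.emb)[u.length + w.length + k]?).elim Sym.rend Sym.sym : Sym M.W)
      rw [List.map_append (l₁ := u ++ w'), List.map_append (l₁ := u ++ w),
        List.getElem?_append_right (l₁ := (u ++ w').map M.emb) (by simp),
        List.getElem?_append_right (l₁ := (u ++ w).map M.emb) (by simp)]
      congr 2
      simp
  by_cases hu : u = []
  · -- the head starts in the region
    subst hu
    obtain ⟨z2, t, m1, m2⟩ := hst.first [] w (by simp) (hreg w) rfl rfl
    obtain ⟨z', m3, m4⟩ := H _ z2 t m1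
    have hlz : z'.length = w'.length := T_length M _ _ _ _ m3
    refine cross_first (c := init M ([] ++ w ++ v)) (m := w.length) (m' := w'.length) (L := 0) w' [] z'
      (init M ([] ++ w' ++ v)) t (by simp) (hreg w') rfl rfl m3 hout ?_
    intro c2 n1 n2 n3 n4 n5
    exact m2 z' c2 hlz (by simpa using m4) n5 (by simpa using n1) n2 n3 n4
  · apply hst.out
    refine ⟨rfl, rfl, hout, Or.inl ⟨?_, rfl, hreg w, hreg w'⟩⟩
    show 1 ≤ u.length
    exact List.length_pos_iff.2 hu

end Pool.Agent.D0H16.SW
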