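import Pool.Agent.D0H16.SW.Det
import Pool.Agent.D0H16.SW.Repl

set_option autoImplicit false

/-!
# Machines with few reversals have the replacement property
-/

namespace Pool.Agent.D0H16.SW

variable {A : Type} {D : LA A}

lemma reach_of {w : List A} {c : Cfg D} (h : Relation.ReflTransGen (Step D) (init D w) c) :
    ∃ k, Reach D w k c := by
  induction h with
  | refl => exact ⟨0, Reach.start⟩
  | @tail c c' _ hs ih =>
    obtain ⟨k, hk⟩ := ih
    by_cases hd : c'.dir = c.dir
    · exact ⟨k, Reach.keep k c c' hk hs hd⟩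
    · exact ⟨k + 1, Reach.turn k c c' hk hs hd⟩

/-- a step without reversal outside of the cells in `S` -/
def SStep (D : LA A) (S : Finset ℕ) (c c1 : Cfg D) : Prop := Step D c c1 ∧ (c.h ∉ S → c1.dir = c.dir)

lemma reach_cells {w : List A} {k : ℕ} {c : Cfg D} (h : Reach D w k c) :
    ∃ S : Finset ℕ, S.card ≤ k ∧ Relation.ReflTransGen (SStep D S) (init D w) c := by
  induction h with
  | start => exact ⟨∅, le_rfl, Relation.ReflTransGen.refl⟩
  | keep k c c' _ hs hd ih =>
    obtain ⟨S, h1, h2⟩ := ih
    exact ⟨S, h1, h2.tail ⟨hs, fun _ => hd⟩⟩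
  | turn k c c' _ hs hd ih =>
    obtain ⟨S, h1, h2⟩ := ih
    refine ⟨insert c.h S, (Finset.card_insert_le _ _).trans (by omega), ?_⟩
    have h3 : Relation.ReflTransGen (SStep D (insert c.h S)) (init D w) c := by
      refine Relation.ReflTransGen.mono ?_ _ _ h2
      rintro a b ⟨g1, g2⟩
      exact ⟨g1, fun g3 => g2 (fun g4 => g3 (Finset.mem_insert_of_mem g4))⟩
    exact h3.tail ⟨hs, fun g => absurd (Finset.mem_insert_self _ _) g⟩

/-- one of `m` disjoint intervals avoids a set with less than `m` elements -/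
lemma avoid (S : Finset ℕ) (m ℓ r : ℕ) (hr : r < ℓ) (hm : S.card < m) :
    ∃ i < m, ∀ s ∈ S, ¬ (i * ℓ < s ∧ s ≤ i * ℓ + r) := by
  by_contra hne
  push Not at hne
  have h1 : Finset.range m ⊆ S.image (fun s => (s - 1) / ℓ) := by
    intro i hi
    obtain ⟨s, hs, h2, h3⟩ := hne i (Finset.mem_range.1 hi)
    refine Finset.mem_image.2 ⟨s, hs, ?_⟩
    rw [Nat.div_eq_iff (by omega)]
    constructor
    · rw [Nat.mul_comm] at *
      omega
    · have : i * ℓ + r < i * ℓ + ℓ := by omega
      omega
  have h2 := (Finset.card_le_card h1).trans Finset.card_image_le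
  rw [Finset.card_range] at h2
  omega

lemma effects {w w' : List A} (hD : D.Deterministic)
    (h1 : ∀ p, aw (fA D) p w = aw (fA D) p w')
    (h2 : ∀ p s, lw (fA D) (fl D) p w s = lw (fA D) (fl D) p w' s)
    (h3 : ∀ p s, rw' (fA D) (fr D) p w s = rw' (fA D) (fr D) p w' s) :
    ∀ p z q, T D p w z q → ∃ z', T D p w' z' q ∧ EqZ D z z' := by
  intro p z q hT
  obtain ⟨g1, g2, g3⟩ := T_fun hD w p z q hT
  rw [h1] at g1
  obtain ⟨z', hz'⟩ := T_exists hD w' p q g1
  obtain ⟨k1, k2, k3⟩ := T_fun hD w' p z' q hz'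
  refine ⟨z', hz', fun s t h => ?_, fun s t h => ?_⟩
  · rw [← g2, h2, k2] at h
    exact h
  · rw [← g3, h3, k3] at h
    exact h

/-- **Machines with few reversals have the replacement property.** -/
theorem replaceable_of_few (hD : D.Deterministic) (hF : D.FewReversals) {X : Type} (wd : X → List A)
    (good : X → Prop) (g : X) (hg : good g) (hgne : wd g ≠ []) : Replaceable D wd good := by
  intro t ht
  set t1 := t ++ [g] with ht1
  have ht1g : ∀ b ∈ t1, good b := by
    intro b hb
    rw [ht1, List.mem_append, List.mem_singleton] at hb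
    rcases hb with hb | hb
    · exact ht b hb
    · rw [hb]; exact hg
  let pw : ℕ → List X := fun j => (List.replicate j t1).flatten
  have hpwg : ∀ j, ∀ b ∈ pw j, good b := by
    intro j b hb
    simp only [pw, List.mem_flatten, List.mem_replicate] at hb
    obtain ⟨l, ⟨_, rfl⟩, hb⟩ := hb
    exact ht1g b hb
  set ℓ := (W wd t1).length with hℓ
  have hlt : (W wd t).length < ℓ := by
    rw [hℓ, ht1, W_append, W_single, List.length_append]
    have := List.length_pos_iff.2 hgne
    omega
  have hlen : ∀ j, (W wd (pw j)).length = j * ℓ := by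
    intro j
    induction j with
    | zero => simp [pw, W]
    | succ j ih =>
      have : pw (j + 1) = t1 ++ pw j := by
        show (List.replicate (j + 1) t1).flatten = _
        rw [List.replicate_succ, List.flatten_cons]
      rw [this, W_append, List.length_append, ih, ← hℓ]
      ring
  obtain ⟨N, hN⟩ := hF (ℓ + 1)
  have hsplit : ∀ i j, pw (i + 1 + j) = pw i ++ t ++ ([g] ++ pw j) := by
    intro i j
    have e1 : pw (i + 1 + j) = pw i ++ (t1 ++ pw j) := by
      show (List.replicate (i + 1 + j) t1).flatten = _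
      rw [show i + 1 + j = i + (1 + j) by omega, List.replicate_add, List.replicate_add,
        List.flatten_append, List.flatten_append]
      simp [pw]
    rw [e1, ht1]
    simp
  by_cases hacc : D.Accepts (W wd (pw (N + 1)))
  · -- find a clean copy
    obtain ⟨e, he1, he2⟩ := hacc
    obtain ⟨k, hk⟩ := reach_of he1
    have hkm : k < N + 1 := by
      have h1 := hN (W wd (pw (N + 1))) (by
        rw [hlen]
        nlinarith) ⟨e, he1, he2⟩ k e hk
      rw [hlen] at h1
      by_contra h2
      push Not at h2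
      nlinarith
    obtain ⟨S, hS1, hS2⟩ := reach_cells hk
    obtain ⟨i, hi, hav⟩ := avoid S (N + 1) ℓ (W wd t).length hlt (by omega)
    obtain ⟨j, hj⟩ : ∃ j, N + 1 = i + 1 + j := ⟨N - i, by omega⟩
    refine ⟨pw i, [g] ++ pw j, hpwg i, ?_, ?_⟩
    · intro b hb
      rw [List.mem_append, List.mem_singleton] at hb
      rcases hb with hb | hb
      · rw [hb]; exact hg
      · exact hpwg j b hb
    · intro t' h1 h2 h3 _
      rw [hj, hsplit] at hS2
      rw [W_append wd (pw i ++ t), W_append wd (pw i) t] at hS2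
      rw [W_append wd (pw i ++ t'), W_append wd (pw i) t']
      refine replace (effects hD h1 h2 h3) e ?_ he2
      refine Relation.ReflTransGen.mono ?_ _ _ hS2
      rintro a b ⟨g1, g2⟩
      refine ⟨g1, fun g3 g4 => g2 (fun g5 => ?_)⟩
      rw [hlen] at g3 g4
      exact hav _ g5 ⟨g3, g4⟩
  · refine ⟨pw 0, [g] ++ pw N, hpwg 0, ?_, ?_⟩
    · intro b hb
      rw [List.mem_append, List.mem_singleton] at hb
      rcases hb with hb | hb
      · rw [hb]; exact hg
      · exact hpwg N b hb
    · intro t' _ _ _ h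
      rw [← hsplit 0 N, show 0 + 1 + N = N + 1 by omega] at h
      exact absurd h hacc

end Pool.Agent.D0H16.SW
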