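import Pool.Agent.D0H16.SW.Def

set_option autoImplicit false

/-!
# The machines `Mn n`

The input is read as a sequence of items: a letter (the type of the item) and `n` further letters.  The
items of type `2` end the blocks.  In the first sweep the machine chooses in every block one item of type
`0` and later one item of type `1` and marks all their cells; in `n` further sweeps to the right it
compares the letters of the marked items.
-/

namespace Pool.Agent.D0H16.SW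

/-- the states of `Mn n`: `F d st` (first sweep), `V d s` (comparison), `B d` (return), `E` (end) -/
abbrev StQ (n : ℕ) : Type :=
  (ZMod (n + 1) × Fin 5) ⊕ (ZMod (n + 1) × Fin 3) ⊕ ZMod (n + 1) ⊕ Unit

abbrev stF {n : ℕ} (d : ZMod (n + 1)) (st : Fin 5) : StQ n := Sum.inl (d, st)
abbrev stV {n : ℕ} (d : ZMod (n + 1)) (s : Fin 3) : StQ n := Sum.inr (Sum.inl (d, s))
abbrev stB {n : ℕ} (d : ZMod (n + 1)) : StQ n := Sum.inr (Sum.inr (Sum.inl d))
abbrev stE {n : ℕ} : StQ n := Sum.inr (Sum.inr (Sum.inr ()))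

/-- the stage after an unmarked item: `0` nothing chosen, `1` in the chosen item of type `0`, `2` after it,
`3` in the chosen item of type `1`, `4` after it -/
def nx : Fin 5 → Fin 5 := ![0, 2, 2, 4, 4]

/-- the mark written in stage `st` -/
def mk : Fin 5 → Fin 3 := ![0, 1, 0, 2, 0]

/-- the possible changes of the stage at a cell with letter `a`; `d = 0` at the first cell of an item -/
def tr {n : ℕ} (d : ZMod (n + 1)) (a : Fin 3) (st st' : Fin 5) : Prop :=
  (d ≠ 0 ∧ st' = st) ∨ (d = 0 ∧ a ≠ 2 ∧ st' = nx st) ∨ (d = 0 ∧ a = 0 ∧ st = 0 ∧ st' = 1) ∨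
  (d = 0 ∧ a = 1 ∧ (st = 1 ∨ st = 2) ∧ st' = 3) ∨ (d = 0 ∧ a = 2 ∧ (st = 3 ∨ st = 4) ∧ st' = 0)

/-- the moves of `Mn n` -/
def dn (n : ℕ) : StQ n → Sym (Fin 3 × Fin 3) → Set (StQ n × (Fin 3 × Fin 3) × Bool)
  | Sum.inl (d, st), Sym.sym (a, _) => {x | ∃ st', tr d a st st' ∧ x = (stF (d + 1) st', (a, mk st'), true)}
  | Sum.inl (d, _), Sym.rend => {(stB (d - 1), (0, 0), false)}
  | Sum.inr (Sum.inl (d, s)), Sym.sym (a, m) =>
      {x | ((d ≠ 0 ∨ m = 0) ∧ x = (stV (d + 1) s, (a, m), true)) ∨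
        (d = 0 ∧ m = 1 ∧ x = (stV (d + 1) a, (a, m), true)) ∨
        (d = 0 ∧ m = 2 ∧ a = s ∧ x = (stV (d + 1) s, (a, m), true))}
  | Sum.inr (Sum.inl (d, _)), Sym.rend => {(stB (d - 1), (0, 0), false)}
  | Sum.inr (Sum.inr (Sum.inl d)), Sym.sym w => {(stB (d - 1), w, false)}
  | Sum.inr (Sum.inr (Sum.inl d)), Sym.lend => {x | (d = 0 ∧ x = (stE, (0, 0), true)) ∨
      (d ≠ 0 ∧ x = (stV d 0, (0, 0), true))}
  | Sum.inr (Sum.inr (Sum.inr _)), Sym.sym w => {(stE, w, true)}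
  | Sum.inr (Sum.inr (Sum.inr _)), Sym.rend => {(stE, (0, 0), true)}
  | _, _ => ∅

/-- the 1-limited automaton `Mn n` over the input alphabet `Fin 3` -/
abbrev Mn (n : ℕ) : LA (Fin 3) where
  Q := StQ n
  W := Fin 3 × Fin 3
  finQ := inferInstance
  finW := inferInstance
  emb := fun a => (a, 0)
  emb_inj := fun _ _ h => congrArg Prod.fst h
  start := stF 0 0
  final := {stE}
  δ := dn n

/-- the direction in which a state moves -/
def dirOf {n : ℕ} : StQ n → Bool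
  | Sum.inr (Sum.inr (Sum.inl _)) => false
  | _ => true

lemma dn_dir {n : ℕ} (q : StQ n) (σ : Sym (Fin 3 × Fin 3)) (x : StQ n × (Fin 3 × Fin 3) × Bool)
    (h : x ∈ dn n q σ) : x.2.2 = dirOf x.1 := by
  rcases q with ⟨d, st⟩ | ⟨d, s⟩ | d | u <;> rcases σ with _ | _ | ⟨a, m⟩ <;>
    simp only [dn, Set.mem_ofPred_eq, Set.mem_singleton_iff, Set.mem_empty_iff_false] at h
  · rw [h]; rfl
  · obtain ⟨st', -, rfl⟩ := h; rfl
  · rw [h]; rfl
  · rcases h with ⟨-, rfl⟩ | ⟨-, -, rfl⟩ | ⟨-, -, -, rfl⟩ <;> rfl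
  · rcases h with ⟨-, rfl⟩ | ⟨-, rfl⟩ <;> rfl
  · rw [h]; rfl
  · rw [h]; rfl
  · rw [h]; rfl

lemma dn_dir' {n : ℕ} (q : StQ n) (w : Fin 3 × Fin 3) (x : StQ n × (Fin 3 × Fin 3) × Bool)
    (h : x ∈ dn n q (Sym.sym w)) : x.2.2 = dirOf q := by
  obtain ⟨a, m⟩ := w
  rcases q with ⟨d, st⟩ | ⟨d, s⟩ | d | u <;>
    simp only [dn, Set.mem_ofPred_eq, Set.mem_singleton_iff] at h
  · obtain ⟨st', -, rfl⟩ := h; rfl
  · rcases h with ⟨-, rfl⟩ | ⟨-, -, rfl⟩ | ⟨-, -, -, rfl⟩ <;> rfl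
  · rw [h]; rfl
  · rw [h]; rfl

theorem Mn_sweeping (n : ℕ) : (Mn n).Sweeping := by
  intro w c c' hr hb hs
  have hinv : ∀ c : Cfg (Mn n), Relation.ReflTransGen (Step (Mn n)) (init (Mn n) w) c →
      c.dir = dirOf c.q := by
    intro c hc
    induction hc with
    | refl => rfl
    | tail _ hs ih =>
      cases hs with
      | right q a h1 h2 => exact dn_dir _ _ _ h1
      | left q a h1 h2 => exact dn_dir _ _ _ h1
  obtain ⟨b, hb⟩ := hb
  rw [hinv c hr]
  cases hs with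
  | right q a h1 h2 =>
    rw [hb] at h1
    exact dn_dir' _ _ _ h1
  | left q a h1 h2 =>
    rw [hb] at h1
    exact dn_dir' _ _ _ h1

lemma Mn_card (n : ℕ) : Nat.card (Mn n).Q = 9 * n + 10 := by
  show Nat.card (StQ n) = _
  rw [Nat.card_eq_fintype_card]
  simp only [StQ, Fintype.card_sum, Fintype.card_prod, ZMod.card, Fintype.card_fin, Fintype.card_unit]
  ring

lemma Mn_cardW (n : ℕ) : Nat.card (Mn n).W = 9 := by
  show Nat.card (Fin 3 × Fin 3) = _
  rw [Nat.card_eq_fintype_card]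
  simp

lemma Mn_moves (n : ℕ) (q : (Mn n).Q) (σ : Sym (Mn n).W) : ((Mn n).δ q σ).ncard ≤ 2 := by
  have h2 : ∀ (a b : StQ n × (Fin 3 × Fin 3) × Bool) (S : Set (StQ n × (Fin 3 × Fin 3) × Bool)),
      S ⊆ {a, b} → S.ncard ≤ 2 := by
    intro a b S hS
    refine (Set.ncard_le_ncard hS (Set.toFinite _)).trans ?_
    exact (Set.ncard_insert_le _ _).trans (by rw [Set.ncard_singleton])
  show (dn n q σ).ncard ≤ 2
  rcases q with ⟨d, st⟩ | ⟨d, s⟩ | d | u <;> rcases σ with _ | _ | ⟨a, m⟩ <;> simp only [dn]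
  · simp
  · simp
  · by_cases hd : d = 0
    · refine h2 (stF (d + 1) (nx st), (a, mk (nx st)), true)
        (stF (d + 1) (if a = 0 then 1 else if a = 1 then 3 else 0),
          (a, mk (if a = 0 then 1 else if a = 1 then 3 else 0)), true) _ ?_
      rintro x ⟨st', h, rfl⟩
      rcases h with ⟨h, -⟩ | ⟨-, -, h⟩ | ⟨-, h1, -, h⟩ | ⟨-, h1, -, h⟩ | ⟨-, h1, -, h⟩
      · exact absurd hd h
      · left; rw [h]
      · right; rw [h, h1]; rfl
      · right; rw [h, h1]; rfl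
      · right; rw [h, h1]; rfl
    · refine h2 (stF (d + 1) st, (a, mk st), true) (stF (d + 1) st, (a, mk st), true) _ ?_
      rintro x ⟨st', h, rfl⟩
      rcases h with ⟨-, h⟩ | ⟨h, -⟩ | ⟨h, -⟩ | ⟨h, -⟩ | ⟨h, -⟩
      · left; rw [h]
      all_goals exact absurd h hd
  · simp
  · simp
  · refine h2 (stV (d + 1) s, (a, m), true) (stV (d + 1) a, (a, m), true) _ ?_
    rintro x (⟨-, rfl⟩ | ⟨-, -, rfl⟩ | ⟨-, -, -, rfl⟩)
    · left; rfl
    · right; rfl
    · left; rfl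
  · refine h2 (stE, (0, 0), true) (stV d 0, (0, 0), true) _ ?_
    rintro x (⟨-, rfl⟩ | ⟨-, rfl⟩)
    · left; rfl
    · right; rfl
  · simp
  · simp
  · simp
  · simp
  · simp

/-! ### Shapes of the sweeps -/

section shapes

variable {n : ℕ}

lemma T_cons (d : ZMod (n + 1)) (st : Fin 5) (a : Fin 3) (w : List (Fin 3)) (z : List (Fin 3 × Fin 3))
    (q : StQ n) : T (Mn n) (stF d st) (a :: w) z q ↔
      ∃ st' z', tr d a st st' ∧ z = (a, mk st') :: z' ∧ T (Mn n) (stF (d + 1) st') w z' q := by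
  constructor
  · rintro ⟨b, z', q1, rfl, ⟨st', h1, h2⟩, h3⟩
    have e1 : q1 = stF (d + 1) st' := congrArg Prod.fst h2
    have e2 : b = (a, mk st') := congrArg (fun x => x.2.1) h2
    subst e1 e2
    exact ⟨st', z', h1, rfl, h3⟩
  · rintro ⟨st', z', h1, rfl, h3⟩
    exact ⟨_, z', _, rfl, ⟨st', h1, rfl⟩, h3⟩

lemma T_shape : ∀ (w : List (Fin 3)) (d : ZMod (n + 1)) (st : Fin 5) (z : List (Fin 3 × Fin 3))
    (q : StQ n), T (Mn n) (stF d st) w z q → ∃ st', q = stF (d + (w.length : ZMod (n + 1))) st'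
  | [], d, st, z, q, h => ⟨st, by rw [h.2]; simp⟩
  | a :: w, d, st, z, q, h => by
    obtain ⟨st', z', -, -, h3⟩ := (T_cons d st a w z q).1 h
    obtain ⟨st'', h4⟩ := T_shape w (d + 1) st' z' q h3
    refine ⟨st'', ?_⟩
    have e : d + 1 + (w.length : ZMod (n + 1)) = d + ((a :: w).length : ZMod (n + 1)) := by
      rw [List.length_cons]; push_cast; ring
    rw [h4, e]

lemma R_cons (d : ZMod (n + 1)) (s : Fin 3) (a m : Fin 3) (z : List (Fin 3 × Fin 3)) (q : StQ n) :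
    Rr (Mn n) (stV d s) ((a, m) :: z) q ↔
      ((d ≠ 0 ∨ m = 0) ∧ Rr (Mn n) (stV (d + 1) s) z q) ∨
      (d = 0 ∧ m = 1 ∧ Rr (Mn n) (stV (d + 1) a) z q) ∨
      (d = 0 ∧ m = 2 ∧ a = s ∧ Rr (Mn n) (stV (d + 1) s) z q) := by
  constructor
  · rintro ⟨q1, b', h1 | h1 | h1, h3⟩
    · obtain ⟨h1, h2⟩ := h1
      have e1 : q1 = stV (d + 1) s := congrArg Prod.fst h2
      rw [e1] at h3
      exact Or.inl ⟨h1, h3⟩
    · obtain ⟨h1, h1', h2⟩ := h1
      have e1 : q1 = stV (d + 1) a := congrArg Prod.fst h2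
      rw [e1] at h3
      exact Or.inr (Or.inl ⟨h1, h1', h3⟩)
    · obtain ⟨h1, h1', h1'', h2⟩ := h1
      have e1 : q1 = stV (d + 1) s := congrArg Prod.fst h2
      rw [e1] at h3
      exact Or.inr (Or.inr ⟨h1, h1', h1'', h3⟩)
  · rintro (⟨h1, h2⟩ | ⟨h1, h1', h2⟩ | ⟨h1, h1', h1'', h2⟩)
    · exact ⟨_, _, Or.inl ⟨h1, rfl⟩, h2⟩
    · exact ⟨_, _, Or.inr (Or.inl ⟨h1, h1', rfl⟩), h2⟩
    · exact ⟨_, _, Or.inr (Or.inr ⟨h1, h1', h1'', rfl⟩), h2⟩

lemma R_shape : ∀ (z : List (Fin 3 × Fin 3)) (d : ZMod (n + 1)) (s : Fin 3) (q : StQ n),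
    Rr (Mn n) (stV d s) z q → ∃ s', q = stV (d + (z.length : ZMod (n + 1))) s'
  | [], d, s, q, h => ⟨s, by rw [show q = stV d s from h]; simp⟩
  | (a, m) :: z, d, s, q, h => by
    have key : ∀ s1, Rr (Mn n) (stV (d + 1) s1) z q → ∃ s', q = stV (d + (((a, m) :: z).length : ZMod (n + 1))) s' := by
      intro s1 h1
      obtain ⟨s', h2⟩ := R_shape z (d + 1) s1 q h1
      refine ⟨s', ?_⟩
      have e : d + 1 + (z.length : ZMod (n + 1)) = d + (((a, m) :: z).length : ZMod (n + 1)) := by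
        rw [List.length_cons]; push_cast; ring
      rw [h2, e]
    rcases (R_cons d s a m z q).1 h with ⟨-, h⟩ | ⟨-, -, h⟩ | ⟨-, -, -, h⟩
    · exact key _ h
    · exact key _ h
    · exact key _ h

lemma L_run : ∀ (r : List (Fin 3 × Fin 3)) (d : ZMod (n + 1)) (q : StQ n),
    Lr (Mn n) (stB d) r q ↔ q = stB (d - (r.length : ZMod (n + 1)))
  | [], d, q => by
    show q = stB d ↔ _
    simp
  | w :: r, d, q => by
    have hlen : d - 1 - (r.length : ZMod (n + 1)) = d - ((w :: r).length : ZMod (n + 1)) := by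
      rw [List.length_cons]; push_cast; ring
    constructor
    · rintro ⟨q1, b', h1, h2⟩
      have h1 : (q1, b', false) = (stB (d - 1), w, false) := h1
      have e1 : q1 = stB (d - 1) := congrArg Prod.fst h1
      rw [e1, L_run r] at h2
      rw [h2, hlen]
    · intro h
      refine ⟨stB (d - 1), w, Set.mem_singleton _, ?_⟩
      rw [L_run r, h, hlen]

lemma E_run : ∀ (z : List (Fin 3 × Fin 3)) (q : StQ n), Rr (Mn n) stE z q ↔ q = stE
  | [], q => Iff.rfl
  | w :: z, q => by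
    constructor
    · rintro ⟨q1, b', h1, h2⟩
      have h1 : (q1, b', true) = (stE, w, true) := h1
      have e1 : q1 = stE := congrArg Prod.fst h1
      rw [e1, E_run z] at h2
      exact h2
    · intro h
      exact ⟨stE, w, Set.mem_singleton _, (E_run z q).2 h⟩

lemma acc_E (z : List (Fin 3 × Fin 3)) : AccR (Mn n) z (stE : StQ n) := by
  have h1 : ((stE : StQ n), ((0, 0) : Fin 3 × Fin 3), true) ∈ (Mn n).δ stE Sym.rend := Set.mem_singleton _
  exact AccR.exit (M := Mn n) (z := z) _ _ _ h1 (Set.mem_singleton _)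

/-- the sweep number `t + 1` -/
lemma acc_step (z : List (Fin 3 × Fin 3)) (hz : (z.length : ZMod (n + 1)) = 0) (q : StQ n)
    (t : ℕ) (ht : t ≤ n) (hq : (∃ s, q = stV (-(t : ZMod (n + 1))) s) ∨ ∃ st, q = stF (-(t : ZMod (n + 1))) st) :
    AccR (Mn n) z q ↔ t = n ∨ (t < n ∧ ∃ s', Rr (Mn n) (stV (-((t + 1 : ℕ) : ZMod (n + 1))) 0) z
      (stV (-((t + 1 : ℕ) : ZMod (n + 1))) s') ∧ AccR (Mn n) z (stV (-((t + 1 : ℕ) : ZMod (n + 1))) s')) := by
  have hδ : (Mn n).δ q Sym.rend = {(stB (-(t : ZMod (n + 1)) - 1), (0, 0), false)} := by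
    rcases hq with ⟨s, rfl⟩ | ⟨st, rfl⟩ <;> rfl
  have hd : -(t : ZMod (n + 1)) - 1 = -((t + 1 : ℕ) : ZMod (n + 1)) := by push_cast; ring
  have hzero : (((t + 1 : ℕ) : ZMod (n + 1)) = 0) ↔ t = n := by
    rw [ZMod.natCast_eq_zero_iff]
    constructor
    · intro h
      have := Nat.le_of_dvd (by omega) h
      omega
    · rintro rfl
      exact dvd_rfl
  constructor
  · intro h
    rcases h.inv with ⟨q', a, h1, h2⟩ | ⟨q1, q2, q3, q4, a, a', h1, h2, h3, h4, h5⟩
    · exfalso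
      rw [hδ] at h1
      have h1 : (q', a, true) = (stB (-(t : ZMod (n + 1)) - 1), (0, 0), false) := h1
      have e1 : true = false := congrArg (fun x => x.2.2) h1
      exact absurd e1 (by simp)
    · rw [hδ] at h1
      have h1 : (q1, a, false) = (stB (-(t : ZMod (n + 1)) - 1), (0, 0), false) := h1
      have e1 : q1 = stB (-(t : ZMod (n + 1)) - 1) := congrArg Prod.fst h1
      rw [e1, L_run, List.length_reverse, hz, sub_zero, hd] at h2
      rw [h2] at h3
      rcases h3 with ⟨g1, -⟩ | ⟨g1, g2⟩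
      · left
        rw [← hzero]
        exact neg_eq_zero.1 g1
      · right
        have g3 : q3 = stV (-((t + 1 : ℕ) : ZMod (n + 1))) 0 := congrArg Prod.fst g2
        rw [g3] at h4
        obtain ⟨s', hs'⟩ := R_shape z _ _ _ h4
        rw [hz, add_zero] at hs'
        refine ⟨lt_of_le_of_ne ht ?_, s', ?_, ?_⟩
        · intro h6
          apply g1
          rw [hzero.2 h6, neg_zero]
        · rw [← hs']; exact h4
        · rw [← hs']; exact h5
  · have hm1 : ((stB (-(t : ZMod (n + 1)) - 1) : StQ n), ((0, 0) : Fin 3 × Fin 3), false) ∈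
        (Mn n).δ q Sym.rend := by
      rw [hδ]; exact Set.mem_singleton _
    have hm2 : Lr (Mn n) (stB (-(t : ZMod (n + 1)) - 1) : StQ n) z.reverse
        (stB (-(t : ZMod (n + 1)) - 1) : StQ n) := by
      rw [L_run, List.length_reverse, hz, sub_zero]
    rintro (h | ⟨h1, s', h2, h3⟩)
    · have hm3 : ((stE : StQ n), ((0, 0) : Fin 3 × Fin 3), true) ∈
          (Mn n).δ (stB (-(t : ZMod (n + 1)) - 1)) Sym.lend := by
        left
        refine ⟨?_, rfl⟩
        rw [hd, hzero.2 h, neg_zero]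
      exact AccR.trip (M := Mn n) (z := z) _ _ _ _ _ _ _ hm1 hm2 hm3 ((E_run z stE).2 rfl) (acc_E z)
    · have hm3 : ((stV (-((t + 1 : ℕ) : ZMod (n + 1))) 0 : StQ n), ((0, 0) : Fin 3 × Fin 3), true) ∈
          (Mn n).δ (stB (-(t : ZMod (n + 1)) - 1)) Sym.lend := by
        right
        rw [hd]
        refine ⟨?_, rfl⟩
        intro h4
        have := hzero.1 (neg_eq_zero.1 h4)
        omega
      exact AccR.trip (M := Mn n) (z := z) _ _ _ _ _ _ _ hm1 hm2 hm3 h2 h3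

lemma acc_iff (z : List (Fin 3 × Fin 3)) (hz : (z.length : ZMod (n + 1)) = 0) : ∀ (k t : ℕ) (q : StQ n),
    t + k = n → ((∃ s, q = stV (-(t : ZMod (n + 1))) s) ∨ ∃ st, q = stF (-(t : ZMod (n + 1))) st) →
    (AccR (Mn n) z q ↔ ∀ i : Fin n, t ≤ i.1 → ∃ s', Rr (Mn n) (stV (-((i.1 + 1 : ℕ) : ZMod (n + 1))) 0) z
      (stV (-((i.1 + 1 : ℕ) : ZMod (n + 1))) s'))
  | 0, t, q, htk, hq => by
    rw [acc_step z hz q t (by omega) hq]
    constructor
    · intro _ i hi
      omega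
    · intro _
      left; omega
  | k + 1, t, q, htk, hq => by
    rw [acc_step z hz q t (by omega) hq]
    constructor
    · rintro (h | ⟨h1, s', h2, h3⟩) i hi
      · omega
      · rw [acc_iff z hz k (t + 1) _ (by omega) (Or.inl ⟨s', rfl⟩)] at h3
        rcases Nat.lt_or_ge t i.1 with h4 | h4
        · exact h3 i h4
        · have : i.1 = t := by omega
          rw [this]
          exact ⟨s', h2⟩
    · intro h
      right
      obtain ⟨s', hs'⟩ := h ⟨t, by omega⟩ le_rfl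
      refine ⟨by omega, s', hs', ?_⟩
      rw [acc_iff z hz k (t + 1) _ (by omega) (Or.inl ⟨s', rfl⟩)]
      intro i hi
      exact h i (by omega)

end shapes

end Pool.Agent.D0H16.SW
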