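import Pool.Agent.D0H16.SW.Mn

set_option autoImplicit false

/-!
# The language of `Mn n` on sequences of items
-/

namespace Pool.Agent.D0H16.SW

variable {n : ℕ}

lemma cast_ne {k : ℕ} (h1 : 1 ≤ k) (h2 : k ≤ n) : (k : ZMod (n + 1)) ≠ 0 := by
  rw [Ne, ZMod.natCast_eq_zero_iff]
  intro h
  have := Nat.le_of_dvd (by omega) h
  omega

lemma cast_top : ((n + 1 : ℕ) : ZMod (n + 1)) = 0 := by
  rw [ZMod.natCast_eq_zero_iff]

lemma T_seg : ∀ (ls : List (Fin 3)) (d : ZMod (n + 1)) (st : Fin 5) (z : List (Fin 3 × Fin 3)) (q : StQ n),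
    (∀ j < ls.length, d + (j : ZMod (n + 1)) ≠ 0) →
    (T (Mn n) (stF d st) ls z q ↔
      z = ls.map (fun a => (a, mk st)) ∧ q = stF (d + (ls.length : ZMod (n + 1))) st)
  | [], d, st, z, q, _ => by
    show (z = [] ∧ q = stF d st) ↔ _
    simp
  | a :: ls, d, st, z, q, h => by
    have hd : d ≠ 0 := by
      have := h 0 (by simp)
      simpa using this
    have hlen : d + 1 + (ls.length : ZMod (n + 1)) = d + ((a :: ls).length : ZMod (n + 1)) := by
      rw [List.length_cons]; push_cast; ring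
    have h' : ∀ j < ls.length, d + 1 + (j : ZMod (n + 1)) ≠ 0 := by
      intro j hj
      have := h (j + 1) (by rw [List.length_cons]; omega)
      intro h1
      apply this
      rw [← h1]
      push_cast
      ring
    rw [T_cons]
    constructor
    · rintro ⟨st', z', h1, rfl, h3⟩
      have h4 : st' = st := by
        rcases h1 with ⟨-, h1⟩ | ⟨h1, -⟩ | ⟨h1, -⟩ | ⟨h1, -⟩ | ⟨h1, -⟩
        · exact h1
        all_goals exact absurd h1 hd
      subst h4
      rw [T_seg ls _ _ _ _ h', hlen] at h3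
      rw [h3.1, h3.2]
      exact ⟨rfl, rfl⟩
    · rintro ⟨rfl, h2⟩
      refine ⟨st, _, Or.inl ⟨hd, rfl⟩, rfl, ?_⟩
      rw [T_seg ls _ _ _ _ h', hlen]
      exact ⟨rfl, h2⟩

lemma R_seg : ∀ (ls : List (Fin 3)) (m : Fin 3) (d : ZMod (n + 1)) (s : Fin 3) (q : StQ n),
    (∀ j < ls.length, d + (j : ZMod (n + 1)) ≠ 0) →
    (Rr (Mn n) (stV d s) (ls.map (fun a => (a, m))) q ↔ q = stV (d + (ls.length : ZMod (n + 1))) s)
  | [], m, d, s, q, _ => by
    show q = stV d s ↔ _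
    simp
  | a :: ls, m, d, s, q, h => by
    have hd : d ≠ 0 := by
      have := h 0 (by simp)
      simpa using this
    have hlen : d + 1 + (ls.length : ZMod (n + 1)) = d + ((a :: ls).length : ZMod (n + 1)) := by
      rw [List.length_cons]; push_cast; ring
    have h' : ∀ j < ls.length, d + 1 + (j : ZMod (n + 1)) ≠ 0 := by
      intro j hj
      have := h (j + 1) (by rw [List.length_cons]; omega)
      intro h1
      apply this
      rw [← h1]
      push_cast
      ring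
    rw [List.map_cons, R_cons, R_seg ls _ _ _ _ h', hlen]
    constructor
    · rintro (⟨-, h1⟩ | ⟨h1, -⟩ | ⟨h1, -⟩)
      · exact h1
      · exact absurd h1 hd
      · exact absurd h1 hd
    · intro h1
      exact Or.inl ⟨Or.inl hd, h1⟩

/-- the word of an item -/
def iw (c : Fin 3) (v : Fin n → Fin 3) : List (Fin 3) := c :: List.ofFn v

lemma iw_length (c : Fin 3) (v : Fin n → Fin 3) : (iw c v).length = n + 1 := by simp [iw]

lemma T_item (c : Fin 3) (v : Fin n → Fin 3) (st : Fin 5) (z : List (Fin 3 × Fin 3)) (q : StQ n) :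
    T (Mn n) (stF 0 st) (iw c v) z q ↔
      ∃ st', tr (0 : ZMod (n + 1)) c st st' ∧ z = (iw c v).map (fun a => (a, mk st')) ∧ q = stF 0 st' := by
  have h' : ∀ j < (List.ofFn v).length, (0 : ZMod (n + 1)) + 1 + (j : ZMod (n + 1)) ≠ 0 := by
    intro j hj
    rw [List.length_ofFn] at hj
    have := cast_ne (n := n) (k := j + 1) (by omega) (by omega)
    intro h1
    apply this
    rw [← h1]
    push_cast
    ring
  have hz : (0 : ZMod (n + 1)) + 1 + ((List.ofFn v).length : ZMod (n + 1)) = 0 := by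
    rw [List.length_ofFn]
    have := cast_top (n := n)
    push_cast at this
    rw [zero_add]
    exact (add_comm _ _).trans this
  unfold iw
  rw [T_cons]
  constructor
  · rintro ⟨st', z', h1, rfl, h3⟩
    rw [T_seg _ _ _ _ _ h', hz] at h3
    exact ⟨st', h1, by rw [h3.1]; rfl, h3.2⟩
  · rintro ⟨st', h1, rfl, h2⟩
    refine ⟨st', _, h1, rfl, ?_⟩
    rw [T_seg _ _ _ _ _ h', hz]
    exact ⟨rfl, h2⟩

/-- the offset of the sweep which compares the letters number `i` -/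
abbrev off (i : Fin n) : ZMod (n + 1) := -((i.1 + 1 : ℕ) : ZMod (n + 1))

lemma R_item (c : Fin 3) (v : Fin n → Fin 3) (m : Fin 3) (i : Fin n) (s : Fin 3) (q : StQ n) :
    Rr (Mn n) (stV (off i) s) ((iw c v).map (fun a => (a, m))) q ↔
      (m = 0 ∧ q = stV (off i) s) ∨ (m = 1 ∧ q = stV (off i) (v i)) ∨
      (m = 2 ∧ v i = s ∧ q = stV (off i) s) := by
  have hi := i.2
  have hsp : iw c v = (iw c v).take (i.1 + 1) ++ v i :: (iw c v).drop (i.1 + 2) := by
    have h1 : i.1 + 1 < (iw c v).length := by rw [iw_length]; omega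
    conv_lhs => rw [← List.take_append_drop (i.1 + 1) (iw c v), List.drop_eq_getElem_cons h1]
    simp [iw]
  set l1 := (iw c v).take (i.1 + 1) with hl1
  set l2 := (iw c v).drop (i.1 + 2) with hl2
  have hn1 : l1.length = i.1 + 1 := by
    rw [hl1, List.length_take, iw_length]; omega
  have hn2 : l2.length = n - 1 - i.1 := by
    rw [hl2, List.length_drop, iw_length]; omega
  have h1 : ∀ j < l1.length, off i + (j : ZMod (n + 1)) ≠ 0 := by
    intro j hj h
    rw [hn1] at hj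
    apply cast_ne (n := n) (k := i.1 + 1 - j) (by omega) (by omega)
    rw [Nat.cast_sub hj.le]
    rw [off, neg_add_eq_zero] at h
    rw [h, sub_self]
  have h2 : ∀ j < l2.length, (0 : ZMod (n + 1)) + 1 + (j : ZMod (n + 1)) ≠ 0 := by
    intro j hj h
    rw [hn2] at hj
    apply cast_ne (n := n) (k := j + 1) (by omega) (by omega)
    rw [← h]
    push_cast
    ring
  have e1 : off i + (l1.length : ZMod (n + 1)) = 0 := by
    rw [hn1, off, neg_add_cancel]
  have e2 : (0 : ZMod (n + 1)) + 1 + (l2.length : ZMod (n + 1)) = off i := by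
    rw [hn2, off, eq_neg_iff_add_eq_zero]
    have h4 : 1 + (n - 1 - i.1) + (i.1 + 1) = n + 1 := by omega
    have h3 : ((1 + (n - 1 - i.1) + (i.1 + 1) : ℕ) : ZMod (n + 1)) = 0 := by
      rw [h4]
      exact cast_top
    rw [Nat.cast_add, Nat.cast_add, Nat.cast_one] at h3
    rw [zero_add]
    exact h3
  have key : ∀ s', Rr (Mn n) (stV (0 + 1) s') (l2.map (fun a => (a, m))) q ↔ q = stV (off i) s' := by
    intro s'
    rw [R_seg l2 m (0 + 1) s' q h2, e2]
  rw [hsp, List.map_append, Rr_append, List.map_cons]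
  constructor
  · rintro ⟨q1, g1, g2⟩
    rw [R_seg l1 m _ s q1 h1, e1] at g1
    rw [g1, R_cons, key, key] at g2
    rcases g2 with ⟨g2 | g2, g3⟩ | ⟨-, g2, g3⟩ | ⟨-, g2, g3, g4⟩
    · exact absurd rfl g2
    · exact Or.inl ⟨g2, g3⟩
    · exact Or.inr (Or.inl ⟨g2, g3⟩)
    · exact Or.inr (Or.inr ⟨g2, g3, g4⟩)
  · intro h
    refine ⟨stV 0 s, (R_seg l1 m _ s _ h1).2 (by rw [e1]), ?_⟩
    rw [R_cons, key, key]
    rcases h with ⟨g1, g2⟩ | ⟨g1, g2⟩ | ⟨g1, g2, g3⟩
    · exact Or.inl ⟨Or.inr g1, g2⟩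
    · exact Or.inr (Or.inl ⟨rfl, g1, g2⟩)
    · exact Or.inr (Or.inr ⟨rfl, g1, g2, g3⟩)

/-- the stage and the stored letters of all comparing sweeps -/
abbrev Sg (n : ℕ) : Type := Fin 5 × (Fin n → Fin 3)

/-- the runs of all sweeps over a part of the tape -/
def Cb (a : Sg n) (w : List (Fin 3)) (z : List (Fin 3 × Fin 3)) (b : Sg n) : Prop :=
  T (Mn n) (stF 0 a.1) w z (stF 0 b.1) ∧
    ∀ i : Fin n, Rr (Mn n) (stV (off i) (a.2 i)) z (stV (off i) (b.2 i))

/-- the change of stage and stored letters over an item -/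
def IR (a : Sg n) (x : Fin 3 × (Fin n → Fin 3)) (b : Sg n) : Prop :=
  tr (0 : ZMod (n + 1)) x.1 a.1 b.1 ∧ ((mk b.1 = 0 ∧ b.2 = a.2) ∨ (mk b.1 = 1 ∧ b.2 = x.2) ∨
    (mk b.1 = 2 ∧ x.2 = a.2 ∧ b.2 = a.2))

lemma stV_inj {d : ZMod (n + 1)} {s s' : Fin 3} (h : (stV d s : StQ n) = stV d s') : s = s' := by
  have := Sum.inl.inj (Sum.inr.inj h)
  exact congrArg Prod.snd this

lemma stF_inj {d : ZMod (n + 1)} {s s' : Fin 5} (h : (stF d s : StQ n) = stF d s') : s = s' := by
  exact congrArg Prod.snd (Sum.inl.inj h)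

lemma Cb_item (a : Sg n) (c : Fin 3) (v : Fin n → Fin 3) (b : Sg n) :
    (∃ z, Cb a (iw c v) z b) ↔ IR a (c, v) b := by
  constructor
  · rintro ⟨z, h1, h2⟩
    rw [T_item] at h1
    obtain ⟨st', g1, rfl, g3⟩ := h1
    have g3 := stF_inj g3
    subst g3
    refine ⟨g1, ?_⟩
    have h3 := fun i => (R_item c v (mk b.1) i (a.2 i) _).1 (h2 i)
    have hm : mk b.1 = 0 ∨ mk b.1 = 1 ∨ mk b.1 = 2 := by
      generalize b.1 = x
      revert x
      decide
    rcases hm with hm | hm | hm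
    · left
      refine ⟨hm, funext fun i => ?_⟩
      rcases h3 i with ⟨-, k⟩ | ⟨k, -⟩ | ⟨k, -⟩
      · exact stV_inj k
      · rw [hm] at k; exact absurd k (by decide)
      · rw [hm] at k; exact absurd k (by decide)
    · right; left
      refine ⟨hm, funext fun i => ?_⟩
      rcases h3 i with ⟨k, -⟩ | ⟨-, k⟩ | ⟨k, -⟩
      · rw [hm] at k; exact absurd k (by decide)
      · exact stV_inj k
      · rw [hm] at k; exact absurd k (by decide)
    · right; right
      refine ⟨hm, funext fun i => ?_, funext fun i => ?_⟩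
      · rcases h3 i with ⟨k, -⟩ | ⟨k, -⟩ | ⟨-, k, -⟩
        · rw [hm] at k; exact absurd k (by decide)
        · rw [hm] at k; exact absurd k (by decide)
        · exact k
      · rcases h3 i with ⟨k, -⟩ | ⟨k, -⟩ | ⟨-, -, k⟩
        · rw [hm] at k; exact absurd k (by decide)
        · rw [hm] at k; exact absurd k (by decide)
        · exact stV_inj k
  · rintro ⟨h1, h2⟩
    refine ⟨(iw c v).map (fun a => (a, mk b.1)), ?_, fun i => ?_⟩
    · rw [T_item]
      exact ⟨b.1, h1, rfl, rfl⟩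
    · rw [R_item]
      rcases h2 with ⟨k1, k2⟩ | ⟨k1, k2⟩ | ⟨k1, k2, k3⟩
      · exact Or.inl ⟨k1, by rw [k2]⟩
      · exact Or.inr (Or.inl ⟨k1, by rw [k2]⟩)
      · exact Or.inr (Or.inr ⟨k1, congrFun k2 i, by rw [k3]⟩)

lemma Cb_append (a b : Sg n) (w1 w2 : List (Fin 3)) (h0 : (w1.length : ZMod (n + 1)) = 0) :
    (∃ z, Cb a (w1 ++ w2) z b) ↔ ∃ c, (∃ z, Cb a w1 z c) ∧ (∃ z, Cb c w2 z b) := by
  constructor
  · rintro ⟨z, h1, h2⟩
    rw [T_append] at h1
    obtain ⟨z1, z2, q1, rfl, g1, g2⟩ := h1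
    obtain ⟨st1, g3⟩ := T_shape w1 0 a.1 z1 q1 g1
    rw [h0, add_zero] at g3
    subst g3
    have hz : (z1.length : ZMod (n + 1)) = 0 := by
      have := T_length (Mn n) w1 _ z1 _ g1
      rw [this, h0]
    have h3 : ∀ i, ∃ s, Rr (Mn n) (stV (off i) (a.2 i)) z1 (stV (off i) s) ∧
        Rr (Mn n) (stV (off i) s) z2 (stV (off i) (b.2 i)) := by
      intro i
      obtain ⟨q, k1, k2⟩ := (Rr_append (Mn n) z1 _ z2 _).1 (h2 i)
      obtain ⟨s, k3⟩ := R_shape z1 _ _ q k1
      rw [hz, add_zero] at k3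
      rw [k3] at k1 k2
      exact ⟨s, k1, k2⟩
    choose s hs1 hs2 using h3
    exact ⟨(st1, s), ⟨z1, g1, hs1⟩, ⟨z2, g2, hs2⟩⟩
  · rintro ⟨c, ⟨z1, g1, g2⟩, ⟨z2, g3, g4⟩⟩
    refine ⟨z1 ++ z2, ?_, fun i => ?_⟩
    · rw [T_append]
      exact ⟨z1, z2, _, rfl, g1, g3⟩
    · rw [Rr_append]
      exact ⟨_, g2 i, g4 i⟩

/-- chains of items -/
def IRs : Sg n → List (Fin 3 × (Fin n → Fin 3)) → Sg n → Prop
  | a, [], b => b = a
  | a, x :: l, b => ∃ c, IR a x c ∧ IRs c l b

lemma IRs_append : ∀ (l1 : List (Fin 3 × (Fin n → Fin 3))) (a : Sg n) (l2 : List (Fin 3 × (Fin n → Fin 3)))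
    (b : Sg n), IRs a (l1 ++ l2) b ↔ ∃ c, IRs a l1 c ∧ IRs c l2 b
  | [], a, l2, b => by
    constructor
    · intro h
      exact ⟨a, rfl, h⟩
    · rintro ⟨c, rfl, h⟩
      exact h
  | x :: l1, a, l2, b => by
    constructor
    · rintro ⟨c, h1, h2⟩
      obtain ⟨c', h3, h4⟩ := (IRs_append l1 c l2 b).1 h2
      exact ⟨c', ⟨c, h1, h3⟩, h4⟩
    · rintro ⟨c', ⟨c, h1, h3⟩, h4⟩
      exact ⟨c, h1, (IRs_append l1 c l2 b).2 ⟨c', h3, h4⟩⟩

/-- the word of a list of items -/
def iws (l : List (Fin 3 × (Fin n → Fin 3))) : List (Fin 3) := (l.map (fun x => iw x.1 x.2)).flatten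

lemma iws_length (l : List (Fin 3 × (Fin n → Fin 3))) : ((iws l).length : ZMod (n + 1)) = 0 := by
  induction l with
  | nil => simp [iws]
  | cons x l ih =>
    have : iws (x :: l) = iw x.1 x.2 ++ iws l := rfl
    rw [this, List.length_append, Nat.cast_add, ih, iw_length, cast_top, add_zero]

lemma Cb_items : ∀ (l : List (Fin 3 × (Fin n → Fin 3))) (a b : Sg n),
    (∃ z, Cb a (iws l) z b) ↔ IRs a l b
  | [], a, b => by
    constructor
    · rintro ⟨z, ⟨h1, h2⟩, h3⟩
      have h1 : z = [] := h1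
      subst h1
      have e1 : b.1 = a.1 := stF_inj h2
      have e2 : b.2 = a.2 := funext fun i => stV_inj (h3 i)
      exact Prod.ext e1 e2
    · intro h
      have h : b = a := h
      subst h
      exact ⟨[], ⟨rfl, rfl⟩, fun i => rfl⟩
  | x :: l, a, b => by
    have : iws (x :: l) = iw x.1 x.2 ++ iws l := rfl
    rw [this, Cb_append _ _ _ _ (by rw [iw_length, cast_top])]
    constructor
    · rintro ⟨c, h1, h2⟩
      exact ⟨c, (Cb_item a x.1 x.2 c).1 h1, (Cb_items l c b).1 h2⟩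
    · rintro ⟨c, h1, h2⟩
      exact ⟨c, (Cb_item a x.1 x.2 c).2 h1, (Cb_items l c b).2 h2⟩

/-- the language of `Mn n` on sequences of items -/
theorem accepts_items (l : List (Fin 3 × (Fin n → Fin 3))) :
    (Mn n).Accepts (iws l) ↔ ∃ b : Sg n, IRs (0, fun _ => 0) l b := by
  rw [accepts_iff (Mn_sweeping n)]
  have h0 := iws_length l
  constructor
  · rintro ⟨z, q, h1, h2⟩
    obtain ⟨st, h3⟩ := T_shape (iws l) 0 0 z q h1
    rw [h0, add_zero] at h3
    have hz : (z.length : ZMod (n + 1)) = 0 := by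
      have := T_length (Mn n) _ _ z _ h1
      rw [this, h0]
    rw [acc_iff z hz n 0 q (by omega) (Or.inr ⟨st, by rw [h3]; simp⟩)] at h2
    have h4 : ∀ i : Fin n, ∃ s', Rr (Mn n) (stV (off i) 0) z (stV (off i) s') :=
      fun i => h2 i (Nat.zero_le _)
    choose s hs using h4
    refine ⟨(st, s), (Cb_items l _ _).1 ⟨z, ?_, hs⟩⟩
    rw [h3] at h1
    exact h1
  · rintro ⟨b, h⟩
    obtain ⟨z, h1, h2⟩ := (Cb_items l _ _).2 h
    have hz : (z.length : ZMod (n + 1)) = 0 := by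
      have := T_length (Mn n) _ _ z _ h1
      rw [this, h0]
    refine ⟨z, stF 0 b.1, h1, ?_⟩
    rw [acc_iff z hz n 0 _ (by omega) (Or.inr ⟨b.1, by simp⟩)]
    intro i _
    exact ⟨b.2 i, h2 i⟩

end Pool.Agent.D0H16.SW
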