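import Pool.Agent.D0H16.SW.Mn2
import Pool.Agent.D0H16.SW.Few

set_option autoImplicit false

/-!
# Blocks: pairs of sets of 0-1 words, and the lower bound
-/

namespace Pool.Agent.D0H16.SW

variable {n : ℕ}

/-- a 0-1 word as letters -/
def cv (v : Fin n → Bool) : Fin n → Fin 3 := fun i => if v i then 1 else 0

lemma cv_inj {u v : Fin n → Bool} (h : cv u = cv v) : u = v := by
  funext i
  have := congrFun h i
  unfold cv at this
  by_cases h1 : u i <;> by_cases h2 : v i <;> simp_all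

abbrev VS (n : ℕ) : Type := Finset (Fin n → Bool)

noncomputable def eItems (α : VS n) : List (Fin 3 × (Fin n → Fin 3)) := α.toList.map (fun v => (0, cv v))

noncomputable def fItems (β : VS n) : List (Fin 3 × (Fin n → Fin 3)) :=
  β.toList.map (fun v => (1, cv v)) ++ [(2, fun _ => 0)]

noncomputable def wdB (x : VS n × VS n) : List (Fin 3) := iws (eItems x.1) ++ iws (fItems x.2)

noncomputable def blk (x : VS n × VS n) : List (Fin 3 × (Fin n → Fin 3)) := eItems x.1 ++ fItems x.2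

lemma iws_append (l1 l2 : List (Fin 3 × (Fin n → Fin 3))) : iws (l1 ++ l2) = iws l1 ++ iws l2 := by
  simp [iws]

lemma W_blk (t : List (VS n × VS n)) : W wdB t = iws (t.map blk).flatten := by
  induction t with
  | nil => rfl
  | cons x t ih =>
    have h1 : W wdB (x :: t) = wdB x ++ W wdB t := rfl
    rw [h1, ih, List.map_cons, List.flatten_cons, iws_append, blk, iws_append]
    rfl

lemma nx_iter (k : ℕ) : nx^[k] 0 = 0 ∧ (∀ s, s = 1 ∨ s = 2 → nx^[k] s = 1 ∨ nx^[k] s = 2) ∧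
    (∀ s, s = 3 ∨ s = 4 → nx^[k] s = 3 ∨ nx^[k] s = 4) := by
  induction k with
  | zero => exact ⟨rfl, fun s h => h, fun s h => h⟩
  | succ k ih =>
    obtain ⟨h1, h2, h3⟩ := ih
    refine ⟨?_, fun s h => ?_, fun s h => ?_⟩
    · rw [Function.iterate_succ_apply', h1]; rfl
    · rw [Function.iterate_succ_apply']
      rcases h2 s h with h | h <;> rw [h] <;> right <;> rfl
    · rw [Function.iterate_succ_apply']
      rcases h3 s h with h | h <;> rw [h] <;> right <;> rfl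

lemma mk_nx (s : Fin 5) : mk (nx s) = 0 := by
  revert s
  decide

lemma skip : ∀ (l : List (Fin 3 × (Fin n → Fin 3))) (a : Sg n), (∀ x ∈ l, x.1 ≠ 2) →
    IRs a l (nx^[l.length] a.1, a.2)
  | [], a, _ => rfl
  | x :: l, a, h => by
    refine ⟨(nx a.1, a.2), ⟨Or.inr (Or.inl ⟨rfl, h x (by simp), rfl⟩), Or.inl ⟨mk_nx _, rfl⟩⟩, ?_⟩
    have := skip l (nx a.1, a.2) (fun y hy => h y (by simp [hy]))
    exact this

lemma block_good (x : VS n × VS n) (hx : (x.1 ∩ x.2).Nonempty) (σ : Fin n → Fin 3) :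
    ∃ σ', IRs (0, σ) (blk x) (0, σ') := by
  obtain ⟨v, hv⟩ := hx
  rw [Finset.mem_inter] at hv
  obtain ⟨l1, l2, hl⟩ := List.append_of_mem (Finset.mem_toList.2 hv.1)
  obtain ⟨m1, m2, hm⟩ := List.append_of_mem (Finset.mem_toList.2 hv.2)
  have hsk0 : ∀ (l : List (Fin n → Bool)) (a : Sg n),
      IRs a (l.map (fun v => ((0 : Fin 3), cv v))) (nx^[l.length] a.1, a.2) := by
    intro l a
    have := skip (l.map (fun v => ((0 : Fin 3), cv v))) a (by
      intro y hy
      obtain ⟨u, -, rfl⟩ := List.mem_map.1 hy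
      show (0 : Fin 3) ≠ 2
      decide)
    rwa [List.length_map] at this
  have hsk1 : ∀ (l : List (Fin n → Bool)) (a : Sg n),
      IRs a (l.map (fun v => ((1 : Fin 3), cv v))) (nx^[l.length] a.1, a.2) := by
    intro l a
    have := skip (l.map (fun v => ((1 : Fin 3), cv v))) a (by
      intro y hy
      obtain ⟨u, -, rfl⟩ := List.mem_map.1 hy
      show (1 : Fin 3) ≠ 2
      decide)
    rwa [List.length_map] at this
  refine ⟨cv v, ?_⟩
  unfold blk eItems fItems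
  rw [hl, hm, List.map_append, List.map_append, List.map_cons, List.map_cons]
  simp only [List.append_assoc, List.cons_append]
  rw [IRs_append]
  refine ⟨_, hsk0 l1 (0, σ), (1, cv v), ?_, ?_⟩
  · refine ⟨Or.inr (Or.inr (Or.inl ⟨rfl, rfl, (nx_iter _).1, rfl⟩)), Or.inr (Or.inl ⟨rfl, rfl⟩)⟩
  · rw [IRs_append]
    refine ⟨_, hsk0 l2 (1, cv v), ?_⟩
    rw [IRs_append]
    refine ⟨_, hsk1 m1 _, (3, cv v), ?_, ?_⟩
    · have h1 := (nx_iter l2.length).2.1 1 (Or.inl rfl)
      have h2 := (nx_iter m1.length).2.1 _ h1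
      exact ⟨Or.inr (Or.inr (Or.inr (Or.inl ⟨rfl, rfl, h2, rfl⟩))), Or.inr (Or.inr ⟨rfl, rfl, rfl⟩)⟩
    · rw [IRs_append]
      refine ⟨_, hsk1 m2 _, (0, cv v), ?_, rfl⟩
      have h1 := (nx_iter m2.length).2.2 3 (Or.inl rfl)
      exact ⟨Or.inr (Or.inr (Or.inr (Or.inr ⟨rfl, rfl, h1, rfl⟩))), Or.inl ⟨rfl, rfl⟩⟩

/-- the invariant inside a block -/
def Inv (x : VS n × VS n) (a : Sg n) : Prop :=
  (a.1 = 1 ∨ a.1 = 2 → ∃ v ∈ x.1, a.2 = cv v) ∧ (a.1 = 3 ∨ a.1 = 4 → (x.1 ∩ x.2).Nonempty)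

lemma inv_nx {x : VS n × VS n} {a b : Sg n} (h : Inv x a) (h1 : b.1 = nx a.1) (h2 : b.2 = a.2) : Inv x b := by
  obtain ⟨st, σ⟩ := a
  obtain ⟨st', σ'⟩ := b
  simp only at h1 h2
  subst h1 h2
  obtain ⟨g1, g2⟩ := h
  simp only at g1 g2
  refine ⟨fun h => ?_, fun h => ?_⟩
  · apply g1
    simp only at h
    revert h
    revert st
    intro st _ _
    fin_cases st <;> simp [nx]
  · apply g2
    simp only at h
    revert h
    revert st
    intro st _ _
    fin_cases st <;> simp [nx]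

lemma mk_zero_of {b : Sg n} {x : Fin n → Fin 3} {a : Sg n} (hb : mk b.1 = 0)
    (h : (mk b.1 = 0 ∧ b.2 = a.2) ∨ (mk b.1 = 1 ∧ b.2 = x) ∨ (mk b.1 = 2 ∧ x = a.2 ∧ b.2 = a.2)) :
    b.2 = a.2 := by
  rcases h with ⟨-, h⟩ | ⟨h, -⟩ | ⟨-, -, h⟩
  · exact h
  · rw [hb] at h; exact absurd h (by decide)
  · exact h

lemma inv_step {x : VS n × VS n} {a b : Sg n} (y : Fin 3 × (Fin n → Fin 3))
    (hy : (∃ u ∈ x.1, y = (0, cv u)) ∨ ∃ u ∈ x.2, y = (1, cv u)) (h : Inv x a) (hI : IR a y b) : Inv x b := by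
  obtain ⟨h1, h2⟩ := hI
  rcases h1 with ⟨h1, -⟩ | ⟨-, -, h3⟩ | ⟨-, h3, h4, h5⟩ | ⟨-, h3, h4, h5⟩ | ⟨-, h3, h4, h5⟩
  · exact absurd rfl h1
  · exact inv_nx h h3 (mk_zero_of (by rw [h3]; exact mk_nx _) h2)
  · rcases hy with ⟨u, hu, rfl⟩ | ⟨u, hu, rfl⟩
    · refine ⟨fun _ => ⟨u, hu, ?_⟩, fun h => ?_⟩
      · rw [h5] at h2
        rcases h2 with ⟨h, -⟩ | ⟨-, h⟩ | ⟨h, -⟩
        · exact absurd h (by decide)
        · exact h
        · exact absurd h (by decide)
      · rw [h5] at h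
        exact absurd h (by decide)
    · exact absurd h3 (by simp)
  · rcases hy with ⟨u, hu, rfl⟩ | ⟨u, hu, rfl⟩
    · exact absurd h3 (by simp)
    · refine ⟨fun h => ?_, fun _ => ?_⟩
      · rw [h5] at h
        exact absurd h (by decide)
      · rw [h5] at h2
        rcases h2 with ⟨h, -⟩ | ⟨h, -⟩ | ⟨-, h6, -⟩
        · exact absurd h (by decide)
        · exact absurd h (by decide)
        · obtain ⟨v, hv, h7⟩ := h.1 h4
          have h8 : cv u = cv v := by rw [← h7]; exact h6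
          rw [cv_inj h8] at hu
          exact ⟨v, Finset.mem_inter.2 ⟨hv, hu⟩⟩
  · rcases hy with ⟨u, hu, rfl⟩ | ⟨u, hu, rfl⟩ <;> exact absurd h3 (by simp)

lemma inv_list {x : VS n × VS n} : ∀ (l : List (Fin 3 × (Fin n → Fin 3))) (a b : Sg n),
    (∀ y ∈ l, (∃ u ∈ x.1, y = (0, cv u)) ∨ ∃ u ∈ x.2, y = (1, cv u)) → Inv x a → IRs a l b → Inv x b
  | [], a, b, _, h, hI => by
    rw [show b = a from hI]
    exact h
  | y :: l, a, b, hl, h, ⟨c, h1, h2⟩ =>
    inv_list l c b (fun z hz => hl z (by simp [hz])) (inv_step y (hl y (by simp)) h h1) h2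

lemma block_bad (x : VS n × VS n) (a b : Sg n) (ha : a.1 = 0) (h : IRs a (blk x) b) :
    b.1 = 0 ∧ (x.1 ∩ x.2).Nonempty := by
  unfold blk fItems at h
  rw [← List.append_assoc, IRs_append] at h
  obtain ⟨c, h1, d, h2, h3⟩ := h
  have hinv : Inv x c := by
    refine inv_list _ a c ?_ ?_ h1
    · intro y hy
      rw [List.mem_append] at hy
      rcases hy with hy | hy
      · obtain ⟨u, hu, rfl⟩ := List.mem_map.1 hy
        exact Or.inl ⟨u, Finset.mem_toList.1 hu, rfl⟩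
      · obtain ⟨u, hu, rfl⟩ := List.mem_map.1 hy
        exact Or.inr ⟨u, Finset.mem_toList.1 hu, rfl⟩
    · refine ⟨fun h => ?_, fun h => ?_⟩
      · rw [ha] at h; exact absurd h (by decide)
      · rw [ha] at h; exact absurd h (by decide)
  have h3 : b = d := h3
  subst h3
  obtain ⟨h4, -⟩ := h2
  rcases h4 with ⟨h4, -⟩ | ⟨-, h4, -⟩ | ⟨-, h4, -⟩ | ⟨-, h4, -⟩ | ⟨-, -, h5, h6⟩
  · exact absurd rfl h4
  · exact absurd rfl h4
  · exact absurd h4 (by simp)
  · exact absurd h4 (by simp)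
  · exact ⟨h6, hinv.2 h5⟩

lemma blocks_good : ∀ (t : List (VS n × VS n)), (∀ x ∈ t, (x.1 ∩ x.2).Nonempty) → ∀ σ : Fin n → Fin 3,
    ∃ σ', IRs (0, σ) (t.map blk).flatten (0, σ')
  | [], _, σ => ⟨σ, rfl⟩
  | x :: t, h, σ => by
    obtain ⟨σ1, h1⟩ := block_good x (h x (by simp)) σ
    obtain ⟨σ2, h2⟩ := blocks_good t (fun y hy => h y (by simp [hy])) σ1
    refine ⟨σ2, ?_⟩
    rw [List.map_cons, List.flatten_cons, IRs_append]
    exact ⟨_, h1, h2⟩

lemma blocks_bad : ∀ (t : List (VS n × VS n)) (a b : Sg n), a.1 = 0 → IRs a (t.map blk).flatten b →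
    ∀ x ∈ t, (x.1 ∩ x.2).Nonempty
  | [], _, _, _, _, x, hx => by simp at hx
  | x :: t, a, b, ha, h, y, hy => by
    rw [List.map_cons, List.flatten_cons, IRs_append] at h
    obtain ⟨c, h1, h2⟩ := h
    obtain ⟨h3, h4⟩ := block_bad x a c ha h1
    rcases List.mem_cons.1 hy with rfl | hy
    · exact h4
    · exact blocks_bad t c b h3 h2 y hy

/-- the language of `Mn n` on sequences of blocks -/
theorem accepts_blocks (t : List (VS n × VS n)) :
    (Mn n).Accepts (W wdB t) ↔ ∀ x ∈ t, (x.1 ∩ x.2).Nonempty := by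
  rw [W_blk, accepts_items]
  constructor
  · rintro ⟨b, h⟩
    exact blocks_bad t _ b rfl h
  · intro h
    obtain ⟨σ', h1⟩ := blocks_good t h (fun _ => 0)
    exact ⟨_, h1⟩

/-- **The lower bound for the language of `Mn n`.** -/
theorem Mn_lower (n : ℕ) (D : LA (Fin 3)) (hD : D.Deterministic) (h : D.Sweeping ∨ D.FewReversals)
    (hL : ∀ w, D.Accepts w ↔ (Mn n).Accepts w) : 2 ^ 2 ^ n ≤ 3 * (Nat.card D.Q + 1) ^ 8 := by
  classical
  let good : VS n × VS n → Prop := fun x => (x.1 ∩ x.2).Nonempty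
  have hR : Replaceable D wdB good := by
    rcases h with h | h
    · exact replaceable_of_sweeping hD h _ _
    · refine replaceable_of_few hD h _ _ ({fun _ => false}, {fun _ => false}) ?_ ?_
      · exact ⟨fun _ => false, by simp⟩
      · simp [wdB, eItems, iws, iw]
  have hb := det_lower wdB good hR (fun t => (hL _).trans (accepts_blocks t))
    (J := VS n) (fun α => iws (eItems α)) (fun α => iws (fItems αᶜ)) (fun α β => (α, βᶜ))
    (fun _ _ => rfl) (by
      intro α hα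
      obtain ⟨v, hv⟩ := hα
      rw [Finset.mem_inter] at hv
      exact (Finset.mem_compl.1 hv.2) hv.1) (by
      intro α β hne
      by_contra hcon
      push Not at hcon
      obtain ⟨h1, h2⟩ := hcon
      apply hne
      apply Finset.Subset.antisymm
      · intro v hv
        by_contra hv'
        exact h1 ⟨v, Finset.mem_inter.2 ⟨hv, Finset.mem_compl.2 hv'⟩⟩
      · intro v hv
        by_contra hv'
        exact h2 ⟨v, Finset.mem_inter.2 ⟨hv, Finset.mem_compl.2 hv'⟩⟩)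
  have hc : Fintype.card (VS n) = 2 ^ 2 ^ n := by
    rw [Fintype.card_finset]
    simp
  rw [hc] at hb
  exact hb

end Pool.Agent.D0H16.SW
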