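import Pool.Agent.D0H16.SW.Mn2

set_option autoImplicit false

/-!
# The number of reversals of `Mn n`
-/

namespace Pool.Agent.D0H16.SW

variable {n : ℕ}

/-- the invariant: state, position of the head and number of reversals -/
def RInv (q : StQ n) (h k : ℕ) : Prop :=
  match q with
  | Sum.inl (d, _) => k = 0 ∧ d + 1 = (h : ZMod (n + 1))
  | Sum.inr (Sum.inl (d, _)) => ∃ t : ℕ, 1 ≤ t ∧ t ≤ n ∧ k = 2 * t ∧ d + 1 + (t : ZMod (n + 1)) = h
  | Sum.inr (Sum.inr (Sum.inl d)) => ∃ t : ℕ, t ≤ n ∧ k = 2 * t + 1 ∧ d + 1 + (t : ZMod (n + 1)) = h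
  | Sum.inr (Sum.inr (Sum.inr _)) => k = 2 * n + 2

lemma rinv_le (q : StQ n) (h k : ℕ) (hi : RInv q h k) : k ≤ 2 * n + 2 := by
  rcases q with ⟨d, st⟩ | ⟨d, s⟩ | d | u
  · obtain ⟨h1, -⟩ := hi; omega
  · obtain ⟨t, -, h1, h2, -⟩ := hi; omega
  · obtain ⟨t, h1, h2, -⟩ := hi; omega
  · have hi : k = 2 * n + 2 := hi
    omega

lemma tape_lend {w : List (Fin 3)} {c : Cfg (Mn n)}
    (h : Relation.ReflTransGen (Step (Mn n)) (init (Mn n) w) c) (i : ℕ) :
    c.tape i = Sym.lend ↔ i = 0 := by
  have hwr : ∀ (c : Cfg (Mn n)) (a : (Mn n).W), (c.tape i = Sym.lend ↔ i = 0) →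
      (c.write a i = Sym.lend ↔ i = 0) := by
    intro c a hc
    unfold Cfg.write
    split_ifs with hcond
    · by_cases hi : i = c.h
      · rw [hi, Function.update_self]
        obtain ⟨-, b, hb⟩ := hcond
        constructor
        · intro h; cases h
        · intro h0
          rw [hi] at hc
          have := hc.2 h0
          rw [hb] at this
          cases this
      · rw [Function.update_of_ne hi]
        exact hc
    · exact hc
  induction h with
  | refl =>
    rcases i with _ | i
    · exact ⟨fun _ => rfl, fun _ => rfl⟩
    · constructor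
      · intro h
        exfalso
        have h : ((((w.map (Mn n).emb))[i]?).elim Sym.rend Sym.sym : Sym (Mn n).W) = Sym.lend := h
        rcases hx : ((w.map (Mn n).emb))[i]? with _ | b
        · rw [hx] at h
          cases h
        · rw [hx] at h
          cases h
      · intro h; cases h
  | tail _ hs ih =>
    cases hs with
    | right q a h1 h2 => exact hwr _ _ ih
    | left q a h1 h2 => exact hwr _ _ ih

lemma reach_path {M : LA (Fin 3)} {w : List (Fin 3)} {k : ℕ} {c : Cfg M} (h : Reach M w k c) :
    Relation.ReflTransGen (Step M) (init M w) c := by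
  induction h with
  | start => exact Relation.ReflTransGen.refl
  | keep k c c' _ hs _ ih => exact ih.tail hs
  | turn k c c' _ hs _ ih => exact ih.tail hs

lemma Mn_dir {w : List (Fin 3)} {c : Cfg (Mn n)}
    (hc : Relation.ReflTransGen (Step (Mn n)) (init (Mn n) w) c) : c.dir = dirOf c.q := by
  induction hc with
  | refl => rfl
  | tail _ hs ih =>
    cases hs with
    | right q a h1 h2 => exact dn_dir _ _ _ h1
    | left q a h1 h2 => exact dn_dir _ _ _ h1

/-- one step -/
lemma rinv_step {w : List (Fin 3)} {c c' : Cfg (Mn n)} {k : ℕ}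
    (hc : Relation.ReflTransGen (Step (Mn n)) (init (Mn n) w) c) (hs : Step (Mn n) c c')
    (hi : RInv c.q c.h k) : RInv c'.q c'.h (if dirOf c'.q = dirOf c.q then k else k + 1) := by
  have hl := tape_lend hc c.h
  obtain ⟨q, h, tape, seen, dir⟩ := c
  simp only at hl hi
  cases hs with
  | right q' a h1 h2 =>
    simp only at h1 h2 ⊢
    rcases hσ : tape h with _ | _ | ⟨b, m⟩
    · -- left end-marker
      have h0 : h = 0 := hl.1 hσ
      subst h0
      rw [hσ] at h1
      rcases q with ⟨d, st⟩ | ⟨d, s⟩ | d | u
      · exact absurd h1 (Set.notMem_empty _)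
      · exact absurd h1 (Set.notMem_empty _)
      · obtain ⟨t, g1, g2, g3⟩ := hi
        have hz : (((t + 1 : ℕ) : ZMod (n + 1)) = 0) ↔ t = n := by
          rw [ZMod.natCast_eq_zero_iff]
          constructor
          · intro h
            have := Nat.le_of_dvd (by omega) h
            omega
          · rintro rfl
            exact dvd_rfl
        rcases h1 with ⟨k1, k2⟩ | ⟨k1, k2⟩
        · have e1 : q' = stE := congrArg Prod.fst k2
          rw [e1, if_neg (by simp [dirOf])]
          show k + 1 = 2 * n + 2
          rw [k1] at g3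
          have : t = n := by
            rw [← hz]
            push_cast at g3 ⊢
            linear_combination g3
          omega
        · have e1 : q' = stV d 0 := congrArg Prod.fst k2
          rw [e1, if_neg (by simp [dirOf])]
          refine ⟨t + 1, by omega, ?_, by omega, ?_⟩
          · have : t ≠ n := by
              intro h
              apply k1
              have h3 := hz.2 h
              push_cast at g3 h3
              linear_combination g3 - h3
            omega
          · push_cast at g3 ⊢
            linear_combination g3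
      · exact absurd h1 (Set.notMem_empty _)
    · exact absurd hσ h2
    · rw [hσ] at h1
      rcases q with ⟨d, st⟩ | ⟨d, s⟩ | d | u
      · obtain ⟨st', -, k2⟩ := h1
        have e1 : q' = stF (d + 1) st' := congrArg Prod.fst k2
        rw [e1]
        show RInv _ _ (if true = true then k else k + 1)
        rw [if_pos rfl]
        obtain ⟨g1, g2⟩ := hi
        refine ⟨g1, ?_⟩
        push_cast
        rw [← g2]
      · obtain ⟨t, g1, g2, g3, g4⟩ := hi
        have key : ∀ s', q' = stV (d + 1) s' →
            RInv q' (h + 1) (if dirOf q' = dirOf (Sum.inr (Sum.inl (d, s)) : StQ n) then k else k + 1) := by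
          intro s' e1
          rw [e1]
          show RInv _ _ (if true = true then k else k + 1)
          rw [if_pos rfl]
          refine ⟨t, g1, g2, g3, ?_⟩
          push_cast
          linear_combination g4
        rcases h1 with ⟨-, k2⟩ | ⟨-, -, k2⟩ | ⟨-, -, -, k2⟩
        · exact key _ (congrArg Prod.fst k2)
        · exact key _ (congrArg Prod.fst k2)
        · exact key _ (congrArg Prod.fst k2)
      · exfalso
        have h1 : (q', a, true) = (stB (d - 1), (b, m), false) := h1
        exact absurd (congrArg (fun x => x.2.2) h1) (by simp)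
      · have h1 : (q', a, true) = (stE, (b, m), true) := h1
        have e1 : q' = stE := congrArg Prod.fst h1
        rw [e1]
        show RInv _ _ (if true = true then k else k + 1)
        rw [if_pos rfl]
        exact hi
  | left q' a h1 h2 =>
    simp only at h1 h2 ⊢
    have hpos : 1 ≤ h := by
      by_contra h0
      exact h2 (hl.2 (by omega))
    obtain ⟨h', rfl⟩ : ∃ h', h = h' + 1 := ⟨h - 1, by omega⟩
    rw [Nat.add_sub_cancel]
    rcases hσ : tape (h' + 1) with _ | _ | ⟨b, m⟩
    · exact absurd hσ h2
    · rw [hσ] at h1
      rcases q with ⟨d, st⟩ | ⟨d, s⟩ | d | u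
      · have h1 : (q', a, false) = (stB (d - 1), (0, 0), false) := h1
        have e1 : q' = stB (d - 1) := congrArg Prod.fst h1
        rw [e1, if_neg (by simp [dirOf])]
        obtain ⟨g1, g2⟩ := hi
        refine ⟨0, Nat.zero_le _, by omega, ?_⟩
        push_cast at g2 ⊢
        linear_combination g2
      · have h1 : (q', a, false) = (stB (d - 1), (0, 0), false) := h1
        have e1 : q' = stB (d - 1) := congrArg Prod.fst h1
        rw [e1, if_neg (by simp [dirOf])]
        obtain ⟨t, g1, g2, g3, g4⟩ := hi
        refine ⟨t, g2, by omega, ?_⟩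
        push_cast at g4 ⊢
        linear_combination g4
      · exact absurd h1 (Set.notMem_empty _)
      · exfalso
        have h1 : (q', a, false) = (stE, (0, 0), true) := h1
        exact absurd (congrArg (fun x => x.2.2) h1) (by simp)
    · rw [hσ] at h1
      rcases q with ⟨d, st⟩ | ⟨d, s⟩ | d | u
      · exfalso
        obtain ⟨st', -, k2⟩ := h1
        exact absurd (congrArg (fun x => x.2.2) k2) (by simp)
      · exfalso
        rcases h1 with ⟨-, k2⟩ | ⟨-, -, k2⟩ | ⟨-, -, -, k2⟩ <;>
          exact absurd (congrArg (fun x => x.2.2) k2) (by simp)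
      · have h1 : (q', a, false) = (stB (d - 1), (b, m), false) := h1
        have e1 : q' = stB (d - 1) := congrArg Prod.fst h1
        rw [e1]
        show RInv _ _ (if false = false then k else k + 1)
        rw [if_pos rfl]
        obtain ⟨t, g1, g2, g3⟩ := hi
        refine ⟨t, g1, g2, ?_⟩
        push_cast at g3 ⊢
        linear_combination g3
      · exfalso
        have h1 : (q', a, false) = (stE, (b, m), true) := h1
        exact absurd (congrArg (fun x => x.2.2) h1) (by simp)

/-- **`Mn n` makes at most `2 n + 2` reversals in every computation.** -/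
theorem Mn_reversals (w : List (Fin 3)) (k : ℕ) (c : Cfg (Mn n)) (h : Reach (Mn n) w k c) :
    k ≤ 2 * n + 2 := by
  suffices hi : RInv c.q c.h k from rinv_le _ _ _ hi
  induction h with
  | start => exact ⟨rfl, by simp [init]⟩
  | keep k c c' hr hs hd ih =>
    have hc := reach_path hr
    have h1 := rinv_step hc hs ih
    rw [Mn_dir (hc.tail hs), Mn_dir hc] at hd
    rwa [if_pos hd] at h1
  | turn k c c' hr hs hd ih =>
    have hc := reach_path hr
    have h1 := rinv_step hc hs ih
    rw [Mn_dir (hc.tail hs), Mn_dir hc] at hd
    rwa [if_neg hd] at h1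

end Pool.Agent.D0H16.SW
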